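import Mathlib
import Pool.Agent.N984.TW.SysA

/-!
# The explicit quadratic form of a block of the twisted theory
-/

open Matrix
open Pool.Agent.H906R3.YM Pool.Agent.W793.YM Pool.Agent.TH618.YM
open Pool.Agent.N984.TW

namespace Pool.Agent.N990.TW

noncomputable section

variable {N l n : ℕ}

/-- torus components at a corner -/
def aof (ξ : Dat.II l → Fin n → ℝ) (j : Cn) : Tor l × Fin 2 → Fin n → ℝ :=
  fun e => ξ (j, (e.1, Fin.natAdd 2 e.2))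

/-- plane components at a corner -/
def kof (ξ : Dat.II l → Fin n → ℝ) (j : Cn) (k : Fin 2) : Tor l → Fin n → ℝ :=
  fun y => ξ (j, (y, Fin.castAdd 2 k))

/-- sum of the squares -/
def sq {I : Type*} [Fintype I] (x : I → Fin n → ℝ) : ℝ := ∑ i, ∑ a, x i a ^ 2

/-- the linearised torus plaquettes -/
def J1c (B : Frame (SU N) n) (φ₀ : Tor l × Fin 2 → SU N) (al : Tor l × Fin 2 → Fin n → ℝ) :
    Tor l → Fin n → ℝ := fun y =>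
  al (y, 0) + AdM B (φ₀ (y, 0)) (al (y + uT l 0, 1)) - AdM B (φ₀ (y, 1)) (al (y + uT l 1, 0)) -
    al (y, 1)

/-- The quadratic form of a block; `κ` is the strength of the gauge fixing. -/
def QB [NeZero N] [NeZero l] (𝔇 : Dat N l n) (κ : ℝ) (fl : Finset Cn)
    (ξ : Dat.II l → Fin n → ℝ) : ℝ :=
  1 / 4 * (∑ j : Cn, if j ∈ fl then
    sq (J1c 𝔇.B 𝔇.φ₀ (aof ξ j)) + 2 * κ * sq (𝔇.P (aof ξ j)) else 0) +
  1 / 2 * (∑ b : Fin 2, if (0, b) ∈ fl ∧ (1, b) ∈ fl then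
    sq (Jl 𝔇.B sE tE 𝔇.φ₀ (kof ξ (0, b) 0) + aof ξ (1, b) - aof ξ (0, b)) else 0) +
  1 / 2 * (∑ a : Fin 2, if (a, 0) ∈ fl ∧ (a, 1) ∈ fl then
    sq (Jl 𝔇.B sE tE 𝔇.φ₀ (kof ξ (a, 0) 1) + aof ξ (a, 1) - aof ξ (a, 0)) else 0) +
  (if (0, 0) ∈ fl ∧ (1, 0) ∉ fl then 2 * sq (kof ξ (0, 0) 0) else 0) +
  (if (0, 0) ∈ fl ∧ (0, 1) ∉ fl then 2 * sq (kof ξ (0, 0) 1) else 0) +
  (if (0, 0) ∈ fl then
    (if (1, 0) ∈ fl ∧ (0, 1) ∈ fl ∧ (1, 1) ∈ fl then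
      sq (kof ξ (0, 0) 0 + kof ξ (1, 0) 1 - kof ξ (0, 1) 0 - kof ξ (0, 0) 1)
      else 0) else 0)

end

end Pool.Agent.N990.TW
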