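import Mathlib

/-!
# The conjugated quadratic form of a block: the sharp lower bound
-/

set_option autoImplicit false
set_option linter.unusedSectionVars false

namespace Pool.Agent.N990.TWI

noncomputable section

variable {E : Type*} [NormedAddCommGroup E] [InnerProductSpace ℝ E]

/-! ### Elementary inequalities -/

lemma inner_le_half (x y : E) : inner ℝ x y ≤ (‖x‖ ^ 2 + ‖y‖ ^ 2) / 2 := by
  have h : 0 ≤ ‖x - y‖ ^ 2 := sq_nonneg _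
  rw [@norm_sub_sq_real] at h
  linarith

lemma neg_half_le_inner (x y : E) : -((‖x‖ ^ 2 + ‖y‖ ^ 2) / 2) ≤ inner ℝ x y := by
  have h : 0 ≤ ‖x + y‖ ^ 2 := sq_nonneg _
  rw [@norm_add_sq_real] at h
  linarith

lemma neg_eta_le_inner {η : ℝ} (hη : 0 < η) (x y : E) :
    -(η * ‖x‖ ^ 2 + 1 / (4 * η) * ‖y‖ ^ 2) ≤ inner ℝ x y := by
  have h : 0 ≤ ‖(2 * η) • x + y‖ ^ 2 := sq_nonneg _
  rw [@norm_add_sq_real, inner_smul_left, norm_smul, Real.norm_eq_abs, mul_pow, sq_abs] at h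
  simp only [conj_trivial] at h
  have h2 : 0 ≤ 1 / (4 * η) * ((2 * η) ^ 2 * ‖x‖ ^ 2 + 2 * (2 * η * inner ℝ x y) + ‖y‖ ^ 2) :=
    mul_nonneg (by positivity) h
  have h3 : 1 / (4 * η) * ((2 * η) ^ 2 * ‖x‖ ^ 2 + 2 * (2 * η * inner ℝ x y) + ‖y‖ ^ 2) =
      η * ‖x‖ ^ 2 + inner ℝ x y + 1 / (4 * η) * ‖y‖ ^ 2 := by
    field_simp
    ring
  rw [h3] at h2
  linarith

lemma norm_add_sq_le (x y : E) : ‖x + y‖ ^ 2 ≤ 2 * (‖x‖ ^ 2 + ‖y‖ ^ 2) := by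
  rw [@norm_add_sq_real]
  linarith [inner_le_half x y]

lemma norm_sub_sq_le (x y : E) : ‖x - y‖ ^ 2 ≤ 2 * (‖x‖ ^ 2 + ‖y‖ ^ 2) := by
  rw [@norm_sub_sq_real]
  linarith [neg_half_le_inner x y]

lemma norm_smul_sq (c : ℝ) (x : E) : ‖c • x‖ ^ 2 = c ^ 2 * ‖x‖ ^ 2 := by
  rw [norm_smul, Real.norm_eq_abs, mul_pow, sq_abs]

lemma norm_add3_sq_le (x y z : E) : ‖x + y + z‖ ^ 2 ≤ 3 * (‖x‖ ^ 2 + ‖y‖ ^ 2 + ‖z‖ ^ 2) := by
  have h1 := inner_le_half x y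
  have h2 := inner_le_half x z
  have h3 := inner_le_half y z
  rw [@norm_add_sq_real, @norm_add_sq_real, inner_add_left]
  linarith

lemma norm_add4_sq_le (x y z w : E) :
    ‖x + y + z + w‖ ^ 2 ≤ 4 * (‖x‖ ^ 2 + ‖y‖ ^ 2 + ‖z‖ ^ 2 + ‖w‖ ^ 2) := by
  have h1 := inner_le_half x y
  have h2 := inner_le_half x z
  have h3 := inner_le_half y z
  have h4 := inner_le_half x w
  have h5 := inner_le_half y w
  have h6 := inner_le_half z w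
  rw [@norm_add_sq_real, @norm_add_sq_real, @norm_add_sq_real, inner_add_left, inner_add_left,
    inner_add_left]
  linarith

/-- the gradient term with weights -/
lemma grad_ineq {p : ℝ} (hp : 0 < p) (x y : E) :
    -((p + p⁻¹ - 2) / 2 * (‖x‖ ^ 2 + ‖y‖ ^ 2)) ≤ inner ℝ (p • y - x) (p⁻¹ • y - x) := by
  have e : inner ℝ (p • y - x) (p⁻¹ • y - x) = ‖y‖ ^ 2 + ‖x‖ ^ 2 - (p + p⁻¹) * inner ℝ x y := by
    rw [inner_sub_left, inner_sub_right, inner_sub_right, inner_smul_left, inner_smul_left,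
      inner_smul_right, inner_smul_right, real_inner_self_eq_norm_sq, real_inner_self_eq_norm_sq,
      real_inner_comm x y]
    simp only [conj_trivial]
    field_simp
    ring
  rw [e]
  have h1 := inner_le_half x y
  have h2 : 0 ≤ p + p⁻¹ := by positivity
  have h3 := mul_le_mul_of_nonneg_left h1 h2
  linarith

/-- perturbation of the mass term -/
lemma pert_ineq (x e f : E) :
    1 / 2 * ‖x‖ ^ 2 - 3 / 2 * (‖e‖ ^ 2 + ‖f‖ ^ 2) ≤ inner ℝ (x + e) (x + f) := by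
  have h1 : inner ℝ (x + e) (x + f) = ‖x‖ ^ 2 + inner ℝ x (e + f) + inner ℝ e f := by
    rw [inner_add_left, inner_add_right, inner_add_right, inner_add_right,
      real_inner_self_eq_norm_sq, real_inner_comm x e]
    ring
  rw [h1]
  have h2 := neg_half_le_inner x (e + f)
  have h3 := norm_add_sq_le e f
  have h4 := neg_half_le_inner e f
  linarith

/-- the plaquette with weights, `q = exp(α/2)` -/
lemma plaq0 {q : ℝ} (hq : 0 < q) (v1 v2 v3 v4 : E) :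
    -((q ^ 2 + (q ^ 2)⁻¹ - 2) / 2 * (‖v2‖ ^ 2 + ‖v4‖ ^ 2)) ≤
      inner ℝ (q • v1 + q ^ 2 • v2 - q • v3 - v4)
        (q⁻¹ • v1 + (q ^ 2)⁻¹ • v2 - q⁻¹ • v3 - v4) := by
  have e : inner ℝ (q • v1 + q ^ 2 • v2 - q • v3 - v4)
        (q⁻¹ • v1 + (q ^ 2)⁻¹ • v2 - q⁻¹ • v3 - v4) +
      (q ^ 2 + (q ^ 2)⁻¹ - 2) / 2 * (‖v2‖ ^ 2 + ‖v4‖ ^ 2) =
      ‖(v1 - v3) + ((q + q⁻¹) / 2) • (v2 - v4)‖ ^ 2 + ((q - q⁻¹) / 2) ^ 2 * ‖v2 - v4‖ ^ 2 := by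
    simp only [inner_add_left, inner_sub_left, inner_add_right, inner_sub_right, inner_smul_left,
      inner_smul_right, real_inner_self_eq_norm_sq, @norm_add_sq_real, @norm_sub_sq_real,
      norm_smul_sq, conj_trivial, real_inner_comm v1 v2, real_inner_comm v1 v3,
      real_inner_comm v1 v4, real_inner_comm v2 v3, real_inner_comm v2 v4, real_inner_comm v3 v4]
    field_simp
    ring
  have h : 0 ≤ ‖(v1 - v3) + ((q + q⁻¹) / 2) • (v2 - v4)‖ ^ 2 +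
      ((q - q⁻¹) / 2) ^ 2 * ‖v2 - v4‖ ^ 2 := by positivity
  linarith

/-! ### The linear data -/

/-- The linear data of the fibre. -/
structure LD (F W R : Type*) [NormedAddCommGroup F] [InnerProductSpace ℝ F]
    [NormedAddCommGroup W] [InnerProductSpace ℝ W] [NormedAddCommGroup R] [InnerProductSpace ℝ R]
    where
  J0 : W →ₗ[ℝ] F
  J1 : F →ₗ[ℝ] R
  P : F →ₗ[ℝ] W
  M2 : ℝ
  B0 : ℝ
  hM : 0 < M2
  hB : 0 ≤ B0
  PJ : ∀ w, P (J0 w) = w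
  JJ : ∀ w, J1 (J0 w) = 0
  orth : ∀ w a, P a = 0 → inner ℝ (J0 w) a = 0
  s0 : ∀ w, M2 * ‖w‖ ^ 2 ≤ ‖J0 w‖ ^ 2
  s1 : ∀ a, P a = 0 → M2 * ‖a‖ ^ 2 ≤ ‖J1 a‖ ^ 2
  b0 : ∀ w, ‖J0 w‖ ^ 2 ≤ B0 * ‖w‖ ^ 2

variable {F W R : Type*} [NormedAddCommGroup F] [InnerProductSpace ℝ F]
    [NormedAddCommGroup W] [InnerProductSpace ℝ W] [NormedAddCommGroup R] [InnerProductSpace ℝ R]
    (D : LD F W R)

namespace LD

/-- the transversal part -/
def tr (a : F) : F := a - D.J0 (D.P a)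

lemma P_tr (a : F) : D.P (D.tr a) = 0 := by
  unfold tr
  rw [map_sub, D.PJ, sub_self]

lemma split (a : F) : a = D.tr a + D.J0 (D.P a) := by
  unfold tr; abel

lemma J1_tr (a : F) : D.J1 a = D.J1 (D.tr a) := by
  unfold tr
  rw [map_sub, D.JJ, sub_zero]

lemma inner_orth {w : W} {a : F} (h : D.P a = 0) : inner ℝ a (D.J0 w) = 0 := by
  rw [real_inner_comm]; exact D.orth w a h

lemma inner_split {a b : F} (ha : D.P a = 0) (hb : D.P b = 0) (w v : W) :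
    inner ℝ (a + D.J0 w) (b + D.J0 v) = inner ℝ a b + inner ℝ (D.J0 w) (D.J0 v) := by
  rw [inner_add_left, inner_add_right, inner_add_right, D.inner_orth ha, D.orth w b hb]
  ring

lemma norm_split (a : F) : ‖a‖ ^ 2 = ‖D.tr a‖ ^ 2 + ‖D.J0 (D.P a)‖ ^ 2 := by
  have h := D.inner_split (D.P_tr a) (D.P_tr a) (D.P a) (D.P a)
  rw [← D.split, real_inner_self_eq_norm_sq, real_inner_self_eq_norm_sq,
    real_inner_self_eq_norm_sq] at h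
  exact h

lemma norm_le (a : F) : ‖a‖ ^ 2 ≤ ‖D.tr a‖ ^ 2 + D.B0 * ‖D.P a‖ ^ 2 := by
  rw [D.norm_split a]
  linarith [D.b0 (D.P a)]

/-- a site -/
lemma site (κ : ℝ) (a : F) : D.M2 * ‖D.tr a‖ ^ 2 + 2 * κ * ‖D.P a‖ ^ 2 ≤
    ‖D.J1 a‖ ^ 2 + 2 * κ * ‖D.P a‖ ^ 2 := by
  rw [D.J1_tr a]
  linarith [D.s1 (D.tr a) (D.P_tr a)]

/-- a link orthogonal to the direction of the weights -/
lemma hop (a b : F) (u : W) : D.M2 * ‖u + D.P b - D.P a‖ ^ 2 ≤ ‖D.J0 u + b - a‖ ^ 2 := by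
  have e : D.J0 u + b - a = (D.tr b - D.tr a) + D.J0 (u + D.P b - D.P a) := by
    rw [map_sub, map_add]
    unfold tr
    abel
  have hP : D.P (D.tr b - D.tr a) = 0 := by rw [map_sub, D.P_tr, D.P_tr, sub_self]
  have h := D.inner_split hP hP (u + D.P b - D.P a) (u + D.P b - D.P a)
  rw [← e, real_inner_self_eq_norm_sq, real_inner_self_eq_norm_sq,
    real_inner_self_eq_norm_sq] at h
  rw [h]
  have := sq_nonneg ‖D.tr b - D.tr a‖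
  linarith [D.s0 (u + D.P b - D.P a)]

/-- the constant of the links -/
def C2 (q : ℝ) : ℝ := 6 * D.B0 * ((q - 1) ^ 2 + (q⁻¹ - 1) ^ 2)

lemma C2_nonneg (q : ℝ) : 0 ≤ D.C2 q := by
  have := D.hB
  unfold C2
  positivity

/-- a link in the direction of the weights -/
lemma hopj {q : ℝ} (hq : 0 < q) (a b : F) (u : W) :
    -((q ^ 2 + (q ^ 2)⁻¹ - 2) / 2 * (‖D.tr a‖ ^ 2 + ‖D.tr b‖ ^ 2)) +
      1 / 2 * (D.M2 * ‖u + D.P b - D.P a‖ ^ 2) - D.C2 q * (‖D.P a‖ ^ 2 + ‖D.P b‖ ^ 2) ≤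
      inner ℝ (D.J0 (q • u) + q ^ 2 • b - a) (D.J0 (q⁻¹ • u) + (q ^ 2)⁻¹ • b - a) := by
  obtain ⟨v, hv⟩ : ∃ v, v = u + D.P b - D.P a := ⟨_, rfl⟩
  have hu : u = v - D.P b + D.P a := by rw [hv]; abel
  have e1 : D.J0 (q • u) + q ^ 2 • b - a = (q ^ 2 • D.tr b - D.tr a) +
      D.J0 (q • (v + ((q - 1) • D.P b - (q⁻¹ - 1) • D.P a))) := by
    have h1 : q • (v + ((q - 1) • D.P b - (q⁻¹ - 1) • D.P a)) = q • u + q ^ 2 • D.P b - D.P a := by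
      rw [hu]
      match_scalars <;> field_simp <;> ring
    rw [h1, map_sub, map_add, map_smul D.J0 (q ^ 2)]
    unfold tr
    rw [smul_sub]
    abel
  have e2 : D.J0 (q⁻¹ • u) + (q ^ 2)⁻¹ • b - a = ((q ^ 2)⁻¹ • D.tr b - D.tr a) +
      D.J0 (q⁻¹ • (v + ((q⁻¹ - 1) • D.P b - (q - 1) • D.P a))) := by
    have h1 : q⁻¹ • (v + ((q⁻¹ - 1) • D.P b - (q - 1) • D.P a)) =
        q⁻¹ • u + (q ^ 2)⁻¹ • D.P b - D.P a := by
      rw [hu]
      match_scalars <;> field_simp <;> ring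
    rw [h1, map_sub, map_add, map_smul D.J0 (q ^ 2)⁻¹]
    unfold tr
    rw [smul_sub]
    abel
  have hP1 : D.P (q ^ 2 • D.tr b - D.tr a) = 0 := by
    rw [map_sub, map_smul, D.P_tr, D.P_tr, smul_zero, sub_zero]
  have hP2 : D.P ((q ^ 2)⁻¹ • D.tr b - D.tr a) = 0 := by
    rw [map_sub, map_smul, D.P_tr, D.P_tr, smul_zero, sub_zero]
  rw [e1, e2, D.inner_split hP1 hP2, ← hv]
  have g := grad_ineq (p := q ^ 2) (by positivity) (D.tr a) (D.tr b)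
  have e3 : inner ℝ (D.J0 (q • (v + ((q - 1) • D.P b - (q⁻¹ - 1) • D.P a))))
      (D.J0 (q⁻¹ • (v + ((q⁻¹ - 1) • D.P b - (q - 1) • D.P a)))) =
      inner ℝ (D.J0 v + D.J0 ((q - 1) • D.P b - (q⁻¹ - 1) • D.P a))
        (D.J0 v + D.J0 ((q⁻¹ - 1) • D.P b - (q - 1) • D.P a)) := by
    rw [map_smul, map_smul, inner_smul_left, inner_smul_right, map_add, map_add]
    simp only [conj_trivial]
    field_simp
  rw [e3]
  have p := pert_ineq (D.J0 v) (D.J0 ((q - 1) • D.P b - (q⁻¹ - 1) • D.P a))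
    (D.J0 ((q⁻¹ - 1) • D.P b - (q - 1) • D.P a))
  have n1 := D.b0 ((q - 1) • D.P b - (q⁻¹ - 1) • D.P a)
  have n2 := D.b0 ((q⁻¹ - 1) • D.P b - (q - 1) • D.P a)
  have m1 := norm_sub_sq_le ((q - 1) • D.P b) ((q⁻¹ - 1) • D.P a)
  have m2 := norm_sub_sq_le ((q⁻¹ - 1) • D.P b) ((q - 1) • D.P a)
  rw [norm_smul_sq, norm_smul_sq] at m1 m2
  have m3 := mul_le_mul_of_nonneg_left m1 D.hB
  have m4 := mul_le_mul_of_nonneg_left m2 D.hB
  have s := D.s0 v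
  have hC : 3 / 2 * (D.B0 * (2 * ((q - 1) ^ 2 * ‖D.P b‖ ^ 2 + (q⁻¹ - 1) ^ 2 * ‖D.P a‖ ^ 2)) +
      D.B0 * (2 * ((q⁻¹ - 1) ^ 2 * ‖D.P b‖ ^ 2 + (q - 1) ^ 2 * ‖D.P a‖ ^ 2))) ≤
      D.C2 q * (‖D.P a‖ ^ 2 + ‖D.P b‖ ^ 2) := by
    unfold C2
    have h0 : 0 ≤ D.B0 * ((q - 1) ^ 2 + (q⁻¹ - 1) ^ 2) * (‖D.P a‖ ^ 2 + ‖D.P b‖ ^ 2) := by
      have := D.hB
      positivity
    linarith
  linarith

end LD

/-! ### The plaquette -/

/-- the size of the coefficients -/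
def Gq (q : ℝ) : ℝ := (q ^ 2 + (q ^ 2)⁻¹) ^ 2

lemma Gq_facts {q : ℝ} (hq : 0 < q) : 1 ≤ Gq q ∧ q ^ 2 ≤ Gq q ∧ (q ^ 2) ^ 2 ≤ Gq q ∧
    (q⁻¹) ^ 2 ≤ Gq q ∧ ((q ^ 2)⁻¹) ^ 2 ≤ Gq q := by
  obtain ⟨p, hp⟩ : ∃ p, p = q ^ 2 := ⟨_, rfl⟩
  have hp0 : 0 < p := by rw [hp]; positivity
  have hi : 0 < p⁻¹ := by positivity
  have h1 : p * p⁻¹ = 1 := mul_inv_cancel₀ hp0.ne'
  have e : Gq q = p ^ 2 + p⁻¹ ^ 2 + 2 := by
    unfold Gq
    rw [← hp]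
    linear_combination 2 * h1
  rw [inv_pow, ← hp, e]
  refine ⟨?_, ?_, ?_, ?_, ?_⟩
  · nlinarith [sq_nonneg p, sq_nonneg p⁻¹]
  · nlinarith [sq_nonneg (p - 1), sq_nonneg p⁻¹]
  · nlinarith [sq_nonneg p⁻¹]
  · nlinarith [sq_nonneg (p⁻¹ - 1), sq_nonneg p]
  · nlinarith [sq_nonneg p]

/-- the coefficient of the longitudinal parts -/
def Eq4 (q : ℝ) : ℝ := 4 * ((q - 1) ^ 2 + (q ^ 2 - q) ^ 2)

lemma Eq4_nonneg (q : ℝ) : 0 ≤ Eq4 q := by unfold Eq4; positivity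

/-- the mismatch of the weights -/
def mis (q : ℝ) (tA tB tC tD : E) : E := (q - 1) • (tA - tC) + (q ^ 2 - q) • (tB - tD)

lemma mis_le (q : ℝ) (tA tB tC tD : E) :
    ‖mis q tA tB tC tD‖ ^ 2 ≤ Eq4 q * (‖tA‖ ^ 2 + ‖tB‖ ^ 2 + ‖tC‖ ^ 2 + ‖tD‖ ^ 2) := by
  unfold mis Eq4
  have h1 := norm_add_sq_le ((q - 1) • (tA - tC)) ((q ^ 2 - q) • (tB - tD))
  rw [norm_smul_sq, norm_smul_sq] at h1
  have h2 := mul_le_mul_of_nonneg_left (norm_sub_sq_le tA tC) (sq_nonneg (q - 1))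
  have h3 := mul_le_mul_of_nonneg_left (norm_sub_sq_le tB tD) (sq_nonneg (q ^ 2 - q))
  have h4 : 0 ≤ (q - 1) ^ 2 * (‖tB‖ ^ 2 + ‖tD‖ ^ 2) := by positivity
  have h5 : 0 ≤ (q ^ 2 - q) ^ 2 * (‖tA‖ ^ 2 + ‖tC‖ ^ 2) := by positivity
  nlinarith

lemma sum4_le {G a b c : ℝ} (hG1 : 1 ≤ G) (ha : a ^ 2 ≤ G) (hb : b ^ 2 ≤ G)
    (hc : c ^ 2 ≤ G) (v1 v2 v3 v4 : E) :
    ‖a • v1 + b • v2 - c • v3 - v4‖ ^ 2 ≤
      4 * G * (‖v1‖ ^ 2 + ‖v2‖ ^ 2 + ‖v3‖ ^ 2 + ‖v4‖ ^ 2) := by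
  have h := norm_add4_sq_le (a • v1) (b • v2) (-(c • v3)) (-v4)
  rw [norm_neg, norm_neg, norm_smul_sq, norm_smul_sq, norm_smul_sq, ← sub_eq_add_neg,
    ← sub_eq_add_neg] at h
  have h1 := mul_le_mul_of_nonneg_right ha (sq_nonneg ‖v1‖)
  have h2 := mul_le_mul_of_nonneg_right hb (sq_nonneg ‖v2‖)
  have h3 := mul_le_mul_of_nonneg_right hc (sq_nonneg ‖v3‖)
  have h4 := mul_le_mul_of_nonneg_right hG1 (sq_nonneg ‖v4‖)
  linarith

/-- the constant of the plaquettes -/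
def C3 (q η : ℝ) : ℝ := (1 / (4 * η) + 1 / 2) * (Eq4 q + Eq4 q⁻¹)

lemma C3_nonneg {q η : ℝ} (hη : 0 < η) : 0 ≤ C3 q η := by
  have h1 := Eq4_nonneg q
  have h2 := Eq4_nonneg q⁻¹
  unfold C3
  positivity

lemma plaq1 {q η : ℝ} (hq : 0 < q) (hη : 0 < η) (u1 u2 u3 u4 tA tB tC tD : E) :
    -((q ^ 2 + (q ^ 2)⁻¹ - 2) / 2 * (‖u2 + tD - tB‖ ^ 2 + ‖u4 + tC - tA‖ ^ 2)) -
      8 * η * Gq q * (‖u1 + tB - tA‖ ^ 2 + ‖u2 + tD - tB‖ ^ 2 + ‖u3 + tD - tC‖ ^ 2 +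
        ‖u4 + tC - tA‖ ^ 2) -
      C3 q η * (‖tA‖ ^ 2 + ‖tB‖ ^ 2 + ‖tC‖ ^ 2 + ‖tD‖ ^ 2) ≤
      inner ℝ (q • u1 + q ^ 2 • u2 - q • u3 - u4)
        (q⁻¹ • u1 + (q ^ 2)⁻¹ • u2 - q⁻¹ • u3 - u4) := by
  obtain ⟨v1, h1⟩ : ∃ v, v = u1 + tB - tA := ⟨_, rfl⟩
  obtain ⟨v2, h2⟩ : ∃ v, v = u2 + tD - tB := ⟨_, rfl⟩
  obtain ⟨v3, h3⟩ : ∃ v, v = u3 + tD - tC := ⟨_, rfl⟩
  obtain ⟨v4, h4⟩ : ∃ v, v = u4 + tC - tA := ⟨_, rfl⟩
  have g1 : u1 = v1 - tB + tA := by rw [h1]; abel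
  have g2 : u2 = v2 - tD + tB := by rw [h2]; abel
  have g3 : u3 = v3 - tD + tC := by rw [h3]; abel
  have g4 : u4 = v4 - tC + tA := by rw [h4]; abel
  have e1 : q • u1 + q ^ 2 • u2 - q • u3 - u4 = (q • v1 + q ^ 2 • v2 - q • v3 - v4) +
      mis q tA tB tC tD := by
    unfold mis
    rw [g1, g2, g3, g4]
    module
  have e2 : q⁻¹ • u1 + (q ^ 2)⁻¹ • u2 - q⁻¹ • u3 - u4 =
      (q⁻¹ • v1 + (q ^ 2)⁻¹ • v2 - q⁻¹ • v3 - v4) + mis q⁻¹ tA tB tC tD := by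
    unfold mis
    rw [g1, g2, g3, g4, inv_pow]
    module
  rw [← h1, ← h2, ← h3, ← h4, e1, e2]
  obtain ⟨X, hX⟩ : ∃ X, X = q • v1 + q ^ 2 • v2 - q • v3 - v4 := ⟨_, rfl⟩
  obtain ⟨Y, hY⟩ : ∃ Y, Y = q⁻¹ • v1 + (q ^ 2)⁻¹ • v2 - q⁻¹ • v3 - v4 := ⟨_, rfl⟩
  obtain ⟨e, he⟩ : ∃ e, e = mis q tA tB tC tD := ⟨_, rfl⟩
  obtain ⟨f, hf⟩ : ∃ f, f = mis q⁻¹ tA tB tC tD := ⟨_, rfl⟩
  have p0 := plaq0 hq v1 v2 v3 v4
  rw [← hX, ← hY] at p0
  rw [← hX, ← hY, ← he, ← hf]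
  have hexp : inner ℝ (X + e) (Y + f) = inner ℝ X Y + inner ℝ X f + inner ℝ Y e + inner ℝ e f := by
    rw [inner_add_left, inner_add_right, inner_add_right, real_inner_comm Y e]
    ring
  have i1 := neg_eta_le_inner hη X f
  have i2 := neg_eta_le_inner hη Y e
  have i3 := neg_half_le_inner e f
  have G := Gq_facts hq
  have s1 := sum4_le G.1 G.2.1 G.2.2.1 G.2.1 v1 v2 v3 v4
  have s2 := sum4_le G.1 G.2.2.2.1 G.2.2.2.2 G.2.2.2.1 v1 v2 v3 v4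
  rw [← hX] at s1
  rw [← hY] at s2
  have m1 := mis_le q tA tB tC tD
  have m2 := mis_le q⁻¹ tA tB tC tD
  rw [← he] at m1
  rw [← hf] at m2
  have hc : 0 ≤ 1 / (4 * η) + 1 / 2 := by positivity
  have t1 := mul_le_mul_of_nonneg_left s1 hη.le
  have t2 := mul_le_mul_of_nonneg_left s2 hη.le
  have t3 := mul_le_mul_of_nonneg_left (add_le_add m1 m2) hc
  rw [hexp]
  unfold C3
  linarith

/-! ### The block -/

open scoped Classical in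
/-- the conjugated form of a block; `A` is the base point, `B` its neighbour in the direction of
the weights, `C` its neighbour in the other direction, `D` the opposite corner -/
def CF (D : LD F W R) (κ q : ℝ) (fA fB fC fD : Prop) (aA aB aC aD : F) (u1 u2 u3 u4 : W) : ℝ :=
  1 / 4 * ((if fA then ‖D.J1 aA‖ ^ 2 + 2 * κ * ‖D.P aA‖ ^ 2 else 0) +
    (if fB then ‖D.J1 aB‖ ^ 2 + 2 * κ * ‖D.P aB‖ ^ 2 else 0) +
    (if fC then ‖D.J1 aC‖ ^ 2 + 2 * κ * ‖D.P aC‖ ^ 2 else 0) +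
    (if fD then ‖D.J1 aD‖ ^ 2 + 2 * κ * ‖D.P aD‖ ^ 2 else 0)) +
  1 / 2 * ((if fA ∧ fB then
      inner ℝ (D.J0 (q • u1) + q ^ 2 • aB - aA) (D.J0 (q⁻¹ • u1) + (q ^ 2)⁻¹ • aB - aA) else 0) +
    (if fC ∧ fD then
      inner ℝ (D.J0 (q • u3) + q ^ 2 • aD - aC) (D.J0 (q⁻¹ • u3) + (q ^ 2)⁻¹ • aD - aC)
      else 0)) +
  1 / 2 * ((if fA ∧ fC then ‖D.J0 u4 + aC - aA‖ ^ 2 else 0) +
    (if fB ∧ fD then ‖D.J0 u2 + aD - aB‖ ^ 2 else 0)) +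
  (if fA ∧ ¬fB then 2 * ‖u1‖ ^ 2 else 0) + (if fA ∧ ¬fC then 2 * ‖u4‖ ^ 2 else 0) +
  (if fA then if fB ∧ fC ∧ fD then inner ℝ (q • u1 + q ^ 2 • u2 - q • u3 - u4)
        (q⁻¹ • u1 + (q ^ 2)⁻¹ • u2 - q⁻¹ • u3 - u4) else 0 else 0)

/-- the parameter of the plaquettes -/
def etc (M q : ℝ) : ℝ := (M - (q ^ 2 + (q ^ 2)⁻¹ - 2)) / (64 * Gq q)

/-- the strength of the gauge fixing which is sufficient -/
def kapc (M B0 q : ℝ) : ℝ :=
  2 * (6 * B0 * ((q - 1) ^ 2 + (q⁻¹ - 1) ^ 2) / 2 + C3 q (etc M q) + 1)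

/-- the constant of the lower bound -/
def cofc (M B0 q : ℝ) : ℝ := min ((M - (q ^ 2 + (q ^ 2)⁻¹ - 2)) / 8) 1 / (B0 + 6)

lemma etc_pos {M q : ℝ} (hq : 0 < q) (hK : q ^ 2 + (q ^ 2)⁻¹ - 2 < M) : 0 < etc M q := by
  have hG := (Gq_facts hq).1
  unfold etc
  exact div_pos (by linarith) (by linarith)

lemma kapc_pos {M B0 q : ℝ} (hq : 0 < q) (hK : q ^ 2 + (q ^ 2)⁻¹ - 2 < M) (hB : 0 ≤ B0) :
    0 < kapc M B0 q := by
  have := C3_nonneg (q := q) (etc_pos hq hK)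
  unfold kapc
  positivity

lemma cofc_pos {M B0 q : ℝ} (hK : q ^ 2 + (q ^ 2)⁻¹ - 2 < M) (hB : 0 ≤ B0) :
    0 < cofc M B0 q := by
  unfold cofc
  exact div_pos (lt_min (by linarith) one_pos) (by linarith)

open scoped Classical in
/-- **The conjugated form of a block.** -/
theorem CF_lower (D : LD F W R) {q : ℝ} (hq : 0 < q) (hK : q ^ 2 + (q ^ 2)⁻¹ - 2 < D.M2)
    {κ : ℝ} (hκ : kapc D.M2 D.B0 q ≤ κ) (fA fB fC fD : Prop)
    (aA aB aC aD : F) (u1 u2 u3 u4 : W) :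
    (if fA then cofc D.M2 D.B0 q * (‖aA‖ ^ 2 + ‖u1‖ ^ 2 + ‖u4‖ ^ 2) else 0) ≤
      CF D κ q fA fB fC fD aA aB aC aD u1 u2 u3 u4 := by
  have hη0 := etc_pos hq hK
  obtain ⟨η, hη⟩ : ∃ η : ℝ, η = etc D.M2 q := ⟨_, rfl⟩
  have hη' : η = etc D.M2 q := hη
  rw [← hη] at hη0
  unfold etc at hη
  obtain ⟨K, hKd⟩ : ∃ K, K = q ^ 2 + (q ^ 2)⁻¹ - 2 := ⟨_, rfl⟩
  have hK0 : 0 ≤ K := by
    have h1 : 0 < q ^ 2 := by positivity
    have h2 : q ^ 2 * (q ^ 2)⁻¹ = 1 := mul_inv_cancel₀ h1.ne'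
    have h3 : 0 < (q ^ 2)⁻¹ := by positivity
    rw [hKd]
    nlinarith [sq_nonneg (q ^ 2 - (q ^ 2)⁻¹)]
  unfold cofc
  rw [← hKd] at hK hη
  rw [← hKd]
  obtain ⟨M, hM⟩ : ∃ M, M = D.M2 := ⟨_, rfl⟩
  rw [← hM] at hK hη
  rw [← hM]
  obtain ⟨m, hm⟩ : ∃ m : ℝ, m = min ((M - K) / 8) 1 := ⟨_, rfl⟩
  rw [← hm]
  have hm0 : 0 < m := by rw [hm]; exact lt_min (by linarith) one_pos
  have hm1 : m ≤ (M - K) / 8 := by rw [hm]; exact min_le_left _ _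
  have hm2 : m ≤ 1 := by rw [hm]; exact min_le_right _ _
  have hG := (Gq_facts hq).1
  have hηG : 8 * η * Gq q = (M - K) / 8 := by
    rw [hη]
    field_simp
    ring
  have hC2 := D.C2_nonneg q
  have hC3 := C3_nonneg (q := q) hη0
  have hB := D.hB
  have hκ2 : D.C2 q / 2 + C3 q η + m ≤ κ / 2 := by
    unfold kapc at hκ
    rw [← hη'] at hκ
    unfold LD.C2
    linarith
  -- the pieces
  have sA := D.site κ aA
  have sB := D.site κ aB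
  have sC := D.site κ aC
  have sD := D.site κ aD
  have h1 := D.hopj hq aA aB u1
  have h3 := D.hopj hq aC aD u3
  have h4 := D.hop aA aC u4
  have h2 := D.hop aB aD u2
  have hp := plaq1 hq hη0 u1 u2 u3 u4 (D.P aA) (D.P aB) (D.P aC) (D.P aD)
  rw [hηG] at hp
  rw [← hKd] at h1 h3 hp
  rw [← hM] at sA sB sC sD h1 h2 h3 h4
  have nA := D.norm_le aA
  have n1 : ‖u1‖ ^ 2 ≤ 3 * (‖u1 + D.P aB - D.P aA‖ ^ 2 + ‖D.P aB‖ ^ 2 + ‖D.P aA‖ ^ 2) := by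
    have h := norm_add3_sq_le (u1 + D.P aB - D.P aA) (-D.P aB) (D.P aA)
    rw [norm_neg] at h
    have e : u1 + D.P aB - D.P aA + -D.P aB + D.P aA = u1 := by abel
    rwa [e] at h
  have n4 : ‖u4‖ ^ 2 ≤ 3 * (‖u4 + D.P aC - D.P aA‖ ^ 2 + ‖D.P aC‖ ^ 2 + ‖D.P aA‖ ^ 2) := by
    have h := norm_add3_sq_le (u4 + D.P aC - D.P aA) (-D.P aC) (D.P aA)
    rw [norm_neg] at h
    have e : u4 + D.P aC - D.P aA + -D.P aC + D.P aA = u4 := by abel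
    rwa [e] at h
  -- names
  obtain ⟨v1, e1⟩ : ∃ x, x = ‖u1 + D.P aB - D.P aA‖ ^ 2 := ⟨_, rfl⟩
  obtain ⟨v2, e2⟩ : ∃ x, x = ‖u2 + D.P aD - D.P aB‖ ^ 2 := ⟨_, rfl⟩
  obtain ⟨v3, e3⟩ : ∃ x, x = ‖u3 + D.P aD - D.P aC‖ ^ 2 := ⟨_, rfl⟩
  obtain ⟨v4, e4⟩ : ∃ x, x = ‖u4 + D.P aC - D.P aA‖ ^ 2 := ⟨_, rfl⟩
  obtain ⟨xA, eA⟩ : ∃ x, x = ‖D.tr aA‖ ^ 2 := ⟨_, rfl⟩
  obtain ⟨xB, eB⟩ : ∃ x, x = ‖D.tr aB‖ ^ 2 := ⟨_, rfl⟩
  obtain ⟨xC, eC⟩ : ∃ x, x = ‖D.tr aC‖ ^ 2 := ⟨_, rfl⟩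
  obtain ⟨xD, eD⟩ : ∃ x, x = ‖D.tr aD‖ ^ 2 := ⟨_, rfl⟩
  obtain ⟨tA, fA'⟩ : ∃ x, x = ‖D.P aA‖ ^ 2 := ⟨_, rfl⟩
  obtain ⟨tB, fB'⟩ : ∃ x, x = ‖D.P aB‖ ^ 2 := ⟨_, rfl⟩
  obtain ⟨tC, fC'⟩ : ∃ x, x = ‖D.P aC‖ ^ 2 := ⟨_, rfl⟩
  obtain ⟨tD, fD'⟩ : ∃ x, x = ‖D.P aD‖ ^ 2 := ⟨_, rfl⟩
  have p1 : 0 ≤ v1 := by rw [e1]; positivity
  have p2 : 0 ≤ v2 := by rw [e2]; positivity
  have p3 : 0 ≤ v3 := by rw [e3]; positivity
  have p4 : 0 ≤ v4 := by rw [e4]; positivity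
  have pA : 0 ≤ xA := by rw [eA]; positivity
  have pB : 0 ≤ xB := by rw [eB]; positivity
  have pC : 0 ≤ xC := by rw [eC]; positivity
  have pD : 0 ≤ xD := by rw [eD]; positivity
  have qA : 0 ≤ tA := by rw [fA']; positivity
  have qB : 0 ≤ tB := by rw [fB']; positivity
  have qC : 0 ≤ tC := by rw [fC']; positivity
  have qD : 0 ≤ tD := by rw [fD']; positivity
  rw [← e1, ← eA, ← eB, ← fA', ← fB'] at h1
  rw [← e3, ← eC, ← eD, ← fC', ← fD'] at h3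
  rw [← e4] at h4
  rw [← e2] at h2
  rw [← e1, ← e2, ← e3, ← e4, ← fA', ← fB', ← fC', ← fD'] at hp
  rw [← eA, ← fA'] at sA nA
  rw [← eB, ← fB'] at sB
  rw [← eC, ← fC'] at sC
  rw [← eD, ← fD'] at sD
  rw [← e1, ← fA', ← fB'] at n1
  rw [← e4, ← fA', ← fC'] at n4
  obtain ⟨w1, hw1⟩ : ∃ x, x = ‖u1‖ ^ 2 := ⟨_, rfl⟩
  obtain ⟨w4, hw4⟩ : ∃ x, x = ‖u4‖ ^ 2 := ⟨_, rfl⟩
  have r1 : 0 ≤ w1 := by rw [hw1]; positivity
  have r4 : 0 ≤ w4 := by rw [hw4]; positivity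
  obtain ⟨yA, hyA⟩ : ∃ x, x = ‖aA‖ ^ 2 := ⟨_, rfl⟩
  rw [← hw1] at n1
  rw [← hw4] at n4
  rw [← hyA] at nA
  -- products
  have kA := mul_nonneg hK0 pA
  have kB := mul_nonneg hK0 pB
  have kC := mul_nonneg hK0 pC
  have kD := mul_nonneg hK0 pD
  have k1 := mul_nonneg hK0 p1
  have k2 := mul_nonneg hK0 p2
  have k3 := mul_nonneg hK0 p3
  have k4 := mul_nonneg hK0 p4
  have mA := mul_le_mul_of_nonneg_right hm1 pA
  have mB := mul_le_mul_of_nonneg_right hm1 pB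
  have mC := mul_le_mul_of_nonneg_right hm1 pC
  have mD := mul_le_mul_of_nonneg_right hm1 pD
  have m1 := mul_le_mul_of_nonneg_right hm1 p1
  have m2 := mul_le_mul_of_nonneg_right hm1 p2
  have m3 := mul_le_mul_of_nonneg_right hm1 p3
  have m4 := mul_le_mul_of_nonneg_right hm1 p4
  have m5 := mul_le_mul_of_nonneg_right hm2 r1
  have m6 := mul_le_mul_of_nonneg_right hm2 r4
  have zA := mul_nonneg hm0.le pA
  have zB := mul_nonneg hm0.le pB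
  have zC := mul_nonneg hm0.le pC
  have zD := mul_nonneg hm0.le pD
  have z1 := mul_nonneg hm0.le p1
  have z2 := mul_nonneg hm0.le p2
  have z3 := mul_nonneg hm0.le p3
  have z4 := mul_nonneg hm0.le p4
  have oA := mul_le_mul_of_nonneg_right hκ2 qA
  have oB := mul_le_mul_of_nonneg_right hκ2 qB
  have oC := mul_le_mul_of_nonneg_right hκ2 qC
  have oD := mul_le_mul_of_nonneg_right hκ2 qD
  have yA0 := mul_nonneg hm0.le qA
  have yB0 := mul_nonneg hm0.le qB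
  have yC0 := mul_nonneg hm0.le qC
  have yD0 := mul_nonneg hm0.le qD
  have cA := mul_nonneg hC2 qA
  have cB := mul_nonneg hC2 qB
  have cC := mul_nonneg hC2 qC
  have cD := mul_nonneg hC2 qD
  have dA := mul_nonneg hC3 qA
  have dB := mul_nonneg hC3 qB
  have dC := mul_nonneg hC3 qC
  have dD := mul_nonneg hC3 qD
  have hfin : ∀ Y : ℝ, yA + w1 + w4 ≤ (D.B0 + 6) * Y →
      m / (D.B0 + 6) * (yA + w1 + w4) ≤ m * Y := by
    intro Y hY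
    rw [div_mul_eq_mul_div, div_le_iff₀ (by linarith)]
    calc m * (yA + w1 + w4) ≤ m * ((D.B0 + 6) * Y) := mul_le_mul_of_nonneg_left hY hm0.le
      _ = m * Y * (D.B0 + 6) := by ring
  have b1 := mul_nonneg hB pA
  have b2 := mul_nonneg hB qA
  have b3 := mul_nonneg hB qB
  have b4 := mul_nonneg hB qC
  have b5 := mul_nonneg hB p1
  have b6 := mul_nonneg hB p4
  have b7 := mul_nonneg hB r1
  have b8 := mul_nonneg hB r4
  have f1 := hfin (xA + tA + tB + tC + v1 + v4) (by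
    clear * - n1 n4 nA pA qA qB qC p1 p4 b1 b2 b3 b4 b5 b6; linarith)
  have f2 := hfin (xA + tA + tB + v1 + w4) (by
    clear * - n1 nA pA qA qB p1 r4 b1 b2 b3 b5 b8; linarith)
  have f3 := hfin (xA + tA + tC + v4 + w1) (by
    clear * - n4 nA pA qA qC p4 r1 b1 b2 b4 b6 b7; linarith)
  have f4 := hfin (xA + tA + w1 + w4) (by
    clear * - nA pA qA r1 r4 b1 b2 b7 b8; linarith)
  unfold CF
  rw [← hyA, ← hw1, ← hw4, ← fA', ← fB', ← fC', ← fD']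
  clear hfin hκ hκ2 hη hη' hηG hm hm1 hm2 hB hC2 hC3 hG hK hK0 hM hKd b1 b2 b3 b4 b5 b6 b7 b8 n1 n4
  clear nA
  by_cases gA : fA
  · by_cases gB : fB
    · by_cases gC : fC
      · by_cases gD : fD
        · simp only [gA, gB, gC, gD, if_true, if_false, and_self, not_true, and_false]
          linarith
        · simp only [gA, gB, gC, gD, if_true, if_false, and_self, not_true, and_false]
          linarith
      · by_cases gD : fD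
        · simp only [gA, gB, gC, gD, if_true, if_false, and_self, not_true, and_false, false_and,
            not_false_iff]
          linarith
        · simp only [gA, gB, gC, gD, if_true, if_false, and_self, not_true, and_false,
            not_false_iff]
          linarith
    · by_cases gC : fC
      · by_cases gD : fD
        · simp only [gA, gB, gC, gD, if_true, if_false, and_self, not_true, and_false, false_and,
            not_false_iff]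
          linarith
        · simp only [gA, gB, gC, gD, if_true, if_false, and_self, not_true, and_false,
            not_false_iff]
          linarith
      · by_cases gD : fD
        · simp only [gA, gB, gC, gD, if_true, if_false, and_self, and_false, false_and,
            not_false_iff]
          linarith
        · simp only [gA, gB, gC, gD, if_true, if_false, and_self, and_false,
            not_false_iff]
          linarith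
  · by_cases gB : fB
    · by_cases gC : fC
      · by_cases gD : fD
        · simp only [gA, gB, gC, gD, if_true, if_false, and_self, false_and]
          linarith
        · simp only [gA, gB, gC, gD, if_true, if_false, and_false, false_and]
          linarith
      · by_cases gD : fD
        · simp only [gA, gB, gC, gD, if_true, if_false, and_self, false_and]
          linarith
        · simp only [gA, gB, gC, gD, if_true, if_false, and_false, false_and]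
          linarith
    · by_cases gC : fC
      · by_cases gD : fD
        · simp only [gA, gB, gC, gD, if_true, if_false, and_self, false_and]
          linarith
        · simp only [gA, gB, gC, gD, if_true, if_false, and_false, false_and]
          linarith
      · by_cases gD : fD
        · simp only [gA, gB, gC, gD, if_true, if_false, false_and]
          linarith
        · simp only [gA, gB, gC, gD, if_false, false_and]
          linarith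

end

end Pool.Agent.N990.TWI
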