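import Mathlib
import Pool.Agent.N990.TW.Form
import Pool.Agent.N990.TW.BlkIneq

/-!
# The explicit form of a block and the conjugated form
-/

set_option linter.unusedSectionVars false
set_option linter.unusedSimpArgs false

open Matrix
open scoped Matrix.Norms.Frobenius
open Pool.Agent.H906R3.YM Pool.Agent.W793.YM Pool.Agent.TH618.YM
open Pool.Agent.N984.TW
open Pool.Agent.N990.TWI

namespace Pool.Agent.N990.TW

noncomputable section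

/-! ### Euclidean spaces -/

section eucl

variable {I : Type*} [Fintype I] {n : ℕ}

/-- a family of vectors as an element of a Euclidean space -/
def toE : (I → Fin n → ℝ) →ₗ[ℝ] EuclideanSpace ℝ (I × Fin n) where
  toFun x := WithLp.toLp 2 fun p => x p.1 p.2
  map_add' x y := by ext p; rfl
  map_smul' c x := by ext p; rfl

/-- the inverse -/
def frE : EuclideanSpace ℝ (I × Fin n) →ₗ[ℝ] (I → Fin n → ℝ) where
  toFun v := fun i a => v (i, a)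
  map_add' x y := by funext i a; rfl
  map_smul' c x := by funext i a; rfl

lemma fr_to (x : I → Fin n → ℝ) : frE (toE x) = x := rfl

lemma to_fr (v : EuclideanSpace ℝ (I × Fin n)) : toE (frE v) = v := by
  ext p; rfl

lemma norm_toE (x : I → Fin n → ℝ) : ‖toE x‖ ^ 2 = sq x := by
  rw [EuclideanSpace.norm_eq, Real.sq_sqrt (Finset.sum_nonneg fun _ _ => sq_nonneg _),
    Fintype.sum_prod_type]
  unfold sq
  refine Finset.sum_congr rfl fun i _ => Finset.sum_congr rfl fun a _ => ?_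
  show ‖x i a‖ ^ 2 = _
  rw [Real.norm_eq_abs, sq_abs]

lemma inner_toE (x y : I → Fin n → ℝ) :
    inner ℝ (toE x) (toE y) = ∑ i, ∑ a, x i a * y i a := by
  rw [PiLp.inner_apply, Fintype.sum_prod_type]
  refine Finset.sum_congr rfl fun i _ => Finset.sum_congr rfl fun a _ => ?_
  show inner ℝ (x i a) (y i a) = _
  rw [real_inner_eq_re_inner]
  simp [mul_comm]

end eucl

variable {N l n : ℕ} [NeZero N] [NeZero l]

/-! ### The linear data of the twisted torus -/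

/-- The spectral facts on the linearised torus theory. -/
structure Spec (𝔇 : Dat N l n) (M2 : ℝ) : Prop where
  hM : 0 < M2
  PJ : ∀ om : Tor l → Fin n → ℝ, 𝔇.P (Jl 𝔇.B sE tE 𝔇.φ₀ om) = om
  JJ : ∀ om : Tor l → Fin n → ℝ, J1c 𝔇.B 𝔇.φ₀ (Jl 𝔇.B sE tE 𝔇.φ₀ om) = 0
  orth : ∀ (om : Tor l → Fin n → ℝ) (al : Tor l × Fin 2 → Fin n → ℝ), 𝔇.P al = 0 →
    ∑ e, ∑ a, Jl 𝔇.B sE tE 𝔇.φ₀ om e a * al e a = 0
  s0 : ∀ om : Tor l → Fin n → ℝ, M2 * sq om ≤ sq (Jl 𝔇.B sE tE 𝔇.φ₀ om)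
  s1 : ∀ al : Tor l × Fin 2 → Fin n → ℝ, 𝔇.P al = 0 → M2 * sq al ≤ sq (J1c 𝔇.B 𝔇.φ₀ al)

/-- `J1c` as a linear map -/
def J1l (B : Frame (SU N) n) (φ₀ : Tor l × Fin 2 → SU N) :
    (Tor l × Fin 2 → Fin n → ℝ) →ₗ[ℝ] (Tor l → Fin n → ℝ) where
  toFun := J1c B φ₀
  map_add' x y := by
    funext e
    unfold J1c
    simp only [Pi.add_apply, AdM_add]
    abel
  map_smul' c x := by
    funext e
    unfold J1c
    simp only [Pi.smul_apply, AdM_smul, RingHom.id_apply, smul_sub, smul_add]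

abbrev EF (l n : ℕ) := EuclideanSpace ℝ ((Tor l × Fin 2) × Fin n)
abbrev EW (l n : ℕ) := EuclideanSpace ℝ (Tor l × Fin n)

lemma AdM_sq_le (B : Frame (SU N) n) (g : SU N) (x : Fin n → ℝ) :
    ∑ a, AdM B g x a ^ 2 ≤ ∑ a, x a ^ 2 := by
  have h1 := pc_sq_le B (mt g * (LX B x * (mt g)ᴴ))
  have h2 : ‖mt g * (LX B x * (mt g)ᴴ)‖ = ‖LX B x‖ := by
    rw [norm_mt_mul]
    have : (mt g)ᴴ = mt g⁻¹ := by rw [mt_inv]
    rw [this, norm_mul_unit]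
  rw [h2, norm_LX_sq] at h1
  exact h1

lemma Jl_sq_le (B : Frame (SU N) n) (φ₀ : Tor l × Fin 2 → SU N) (om : Tor l → Fin n → ℝ) :
    sq (Jl B sE tE φ₀ om) ≤ 8 * sq om := by
  have h1 : ∀ e : Tor l × Fin 2, ∑ a, Jl B sE tE φ₀ om e a ^ 2 ≤
      2 * (∑ a, om (sE e) a ^ 2 + ∑ a, om (tE e) a ^ 2) := by
    intro e
    have h2 := AdM_sq_le B (φ₀ e) (om (tE e))
    have h3 : ∑ a, Jl B sE tE φ₀ om e a ^ 2 ≤
        ∑ a, 2 * (om (sE e) a ^ 2 + AdM B (φ₀ e) (om (tE e)) a ^ 2) := by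
      refine Finset.sum_le_sum fun a _ => ?_
      have h4 : Jl B sE tE φ₀ om e a = om (sE e) a - AdM B (φ₀ e) (om (tE e)) a := rfl
      rw [h4]
      nlinarith [sq_nonneg (om (sE e) a + AdM B (φ₀ e) (om (tE e)) a)]
    rw [← Finset.mul_sum, Finset.sum_add_distrib] at h3
    linarith
  have h5 : ∑ e : Tor l × Fin 2, ∑ a, om (sE e) a ^ 2 = 2 * sq om := by
    have : ∑ e : Tor l × Fin 2, ∑ a, om (sE e) a ^ 2 =
        ∑ y : Tor l, ∑ _j : Fin 2, ∑ a, om y a ^ 2 := Fintype.sum_prod_type _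
    rw [this]
    simp only [Finset.sum_const, Finset.card_univ, Fintype.card_fin, nsmul_eq_mul]
    rw [← Finset.mul_sum]
    rfl
  have h6 : ∑ e : Tor l × Fin 2, ∑ a, om (tE e) a ^ 2 = 2 * sq om := by
    have : ∑ e : Tor l × Fin 2, ∑ a, om (tE e) a ^ 2 =
        ∑ y : Tor l, ∑ j : Fin 2, ∑ a, om (y + uT l j) a ^ 2 := Fintype.sum_prod_type _
    rw [this, Finset.sum_comm]
    have h7 : ∀ j : Fin 2, ∑ y : Tor l, ∑ a, om (y + uT l j) a ^ 2 = sq om := by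
      intro j
      exact Equiv.sum_comp (Equiv.addRight (uT l j)) fun y => ∑ a, om y a ^ 2
    rw [Fin.sum_univ_two, h7, h7]
    ring
  calc sq (Jl B sE tE φ₀ om) ≤ ∑ e : Tor l × Fin 2,
        2 * (∑ a, om (sE e) a ^ 2 + ∑ a, om (tE e) a ^ 2) := Finset.sum_le_sum fun e _ => h1 e
    _ = 8 * sq om := by
        rw [← Finset.mul_sum, Finset.sum_add_distrib, h5, h6]
        ring

/-- the linear data -/
def Spec.LD {𝔇 : Dat N l n} {M2 : ℝ} (S : Spec 𝔇 M2) : LD (EF l n) (EW l n) (EW l n) where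
  J0 := toE ∘ₗ Jl 𝔇.B sE tE 𝔇.φ₀ ∘ₗ frE
  J1 := toE ∘ₗ J1l 𝔇.B 𝔇.φ₀ ∘ₗ frE
  P := toE ∘ₗ 𝔇.P ∘ₗ frE
  M2 := M2
  B0 := 8
  hM := S.hM
  hB := by norm_num
  PJ w := by
    show toE (𝔇.P (frE (toE (Jl 𝔇.B sE tE 𝔇.φ₀ (frE w))))) = w
    rw [fr_to, S.PJ, to_fr]
  JJ w := by
    show toE (J1c 𝔇.B 𝔇.φ₀ (frE (toE (Jl 𝔇.B sE tE 𝔇.φ₀ (frE w))))) = 0
    rw [fr_to, S.JJ, map_zero]
  orth w a ha := by
    have h1 : 𝔇.P (frE a) = 0 := by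
      have h : frE (toE (𝔇.P (frE a))) = frE (0 : EW l n) := congrArg frE ha
      rwa [fr_to, map_zero] at h
    have h2 := S.orth (frE w) (frE a) h1
    rw [← inner_toE, to_fr] at h2
    exact h2
  s0 w := by
    have h := S.s0 (frE w)
    rw [← norm_toE, ← norm_toE, to_fr] at h
    exact h
  s1 a ha := by
    have h1 : 𝔇.P (frE a) = 0 := by
      have h : frE (toE (𝔇.P (frE a))) = frE (0 : EW l n) := congrArg frE ha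
      rwa [fr_to, map_zero] at h
    have h := S.s1 (frE a) h1
    rw [← norm_toE, ← norm_toE, to_fr] at h
    exact h
  b0 w := by
    have h := Jl_sq_le 𝔇.B 𝔇.φ₀ (frE w)
    rw [← norm_toE, ← norm_toE, to_fr] at h
    exact h

/-! ### The weights -/

/-- the coordinate of a corner -/
def cj (j : Fin 2) (c : Cn) : ℕ := if j = 0 then (c.1 : ℕ) else (c.2 : ℕ)

/-- the weights in a block -/
def wI (j : Fin 2) (q : ℝ) (p : Dat.II l) : ℝ :=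
  (q ^ 2) ^ (cj j p.1) * (if p.2.2 = Fin.castAdd 2 j then q else 1)

/-- multiplication with the weights -/
def mI (j : Fin 2) (q : ℝ) (ξ : Dat.II l → Fin n → ℝ) : Dat.II l → Fin n → ℝ :=
  fun p => wI j q p • ξ p

lemma aof_mI (j : Fin 2) (q : ℝ) (ξ : Dat.II l → Fin n → ℝ) (c : Cn) :
    aof (mI j q ξ) c = (q ^ 2) ^ (cj j c) • aof ξ c := by
  funext e
  unfold aof mI wI
  rw [if_neg, mul_one]
  · rfl
  · intro h
    have := congrArg Fin.val h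
    simp only [Fin.val_natAdd, Fin.val_castAdd] at this
    have := j.2
    omega

lemma kof_mI_same (j : Fin 2) (q : ℝ) (ξ : Dat.II l → Fin n → ℝ) (c : Cn) :
    kof (mI j q ξ) c j = ((q ^ 2) ^ (cj j c) * q) • kof ξ c j := by
  funext e
  unfold kof mI wI
  rw [if_pos rfl]
  rfl

lemma kof_mI_ne {j k : Fin 2} (h : k ≠ j) (q : ℝ) (ξ : Dat.II l → Fin n → ℝ) (c : Cn) :
    kof (mI j q ξ) c k = (q ^ 2) ^ (cj j c) • kof ξ c k := by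
  funext e
  unfold kof mI wI
  rw [if_neg, mul_one]
  · rfl
  · intro h'
    apply h
    exact Fin.castAdd_injective 2 2 h'

lemma aof_add (ξ η : Dat.II l → Fin n → ℝ) (c : Cn) : aof (ξ + η) c = aof ξ c + aof η c := rfl
lemma kof_add (ξ η : Dat.II l → Fin n → ℝ) (c : Cn) (k : Fin 2) :
    kof (ξ + η) c k = kof ξ c k + kof η c k := rfl
lemma aof_sub (ξ η : Dat.II l → Fin n → ℝ) (c : Cn) : aof (ξ - η) c = aof ξ c - aof η c := rfl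
lemma kof_sub (ξ η : Dat.II l → Fin n → ℝ) (c : Cn) (k : Fin 2) :
    kof (ξ - η) c k = kof ξ c k - kof η c k := rfl

/-! ### Polarisation -/

/-- the scalar product -/
def dt {I : Type*} [Fintype I] (x y : I → Fin n → ℝ) : ℝ := ∑ i, ∑ a, x i a * y i a

lemma dt_eq {I : Type*} [Fintype I] (x y : I → Fin n → ℝ) :
    dt x y = inner ℝ (toE x) (toE y) := (inner_toE x y).symm

lemma sq_pol {I : Type*} [Fintype I] (x y : I → Fin n → ℝ) :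
    sq (x + y) - sq (x - y) = 4 * dt x y := by
  rw [← norm_toE, ← norm_toE, map_add, map_sub, dt_eq, @norm_add_sq_real, @norm_sub_sq_real]
  ring

lemma ite_pol {p : Prop} [Decidable p] {X Y Z : ℝ} (h : X - Y = 4 * Z) :
    (if p then X else 0) - (if p then Y else 0) = 4 * (if p then Z else 0) := by
  split_ifs
  · exact h
  · ring

lemma sum_pol {I : Type*} (s : Finset I) {X Y Z : I → ℝ} (h : ∀ i ∈ s, X i - Y i = 4 * Z i) :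
    ∑ i ∈ s, X i - ∑ i ∈ s, Y i = 4 * ∑ i ∈ s, Z i := by
  rw [← Finset.sum_sub_distrib, Finset.mul_sum]
  exact Finset.sum_congr rfl h

/-- the bilinear form of a block -/
def QBb (𝔇 : Dat N l n) (κ : ℝ) (fl : Finset Cn) (ξ η : Dat.II l → Fin n → ℝ) : ℝ :=
  1 / 4 * (∑ j : Cn, if j ∈ fl then
    dt (J1c 𝔇.B 𝔇.φ₀ (aof ξ j)) (J1c 𝔇.B 𝔇.φ₀ (aof η j)) +
      2 * κ * dt (𝔇.P (aof ξ j)) (𝔇.P (aof η j)) else 0) +
  1 / 2 * (∑ b : Fin 2, if (0, b) ∈ fl ∧ (1, b) ∈ fl then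
    dt (Jl 𝔇.B sE tE 𝔇.φ₀ (kof ξ (0, b) 0) + aof ξ (1, b) - aof ξ (0, b))
      (Jl 𝔇.B sE tE 𝔇.φ₀ (kof η (0, b) 0) + aof η (1, b) - aof η (0, b)) else 0) +
  1 / 2 * (∑ a : Fin 2, if (a, 0) ∈ fl ∧ (a, 1) ∈ fl then
    dt (Jl 𝔇.B sE tE 𝔇.φ₀ (kof ξ (a, 0) 1) + aof ξ (a, 1) - aof ξ (a, 0))
      (Jl 𝔇.B sE tE 𝔇.φ₀ (kof η (a, 0) 1) + aof η (a, 1) - aof η (a, 0)) else 0) +
  (if (0, 0) ∈ fl ∧ (1, 0) ∉ fl then 2 * dt (kof ξ (0, 0) 0) (kof η (0, 0) 0) else 0) +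
  (if (0, 0) ∈ fl ∧ (0, 1) ∉ fl then 2 * dt (kof ξ (0, 0) 1) (kof η (0, 0) 1) else 0) +
  (if (0, 0) ∈ fl then
    (if (1, 0) ∈ fl ∧ (0, 1) ∈ fl ∧ (1, 1) ∈ fl then
      dt (kof ξ (0, 0) 0 + kof ξ (1, 0) 1 - kof ξ (0, 1) 0 - kof ξ (0, 0) 1)
        (kof η (0, 0) 0 + kof η (1, 0) 1 - kof η (0, 1) 0 - kof η (0, 0) 1)
      else 0) else 0)

lemma J1c_add (B : Frame (SU N) n) (φ₀ : Tor l × Fin 2 → SU N)
    (x y : Tor l × Fin 2 → Fin n → ℝ) : J1c B φ₀ (x + y) = J1c B φ₀ x + J1c B φ₀ y :=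
  (J1l B φ₀).map_add x y

lemma J1c_sub (B : Frame (SU N) n) (φ₀ : Tor l × Fin 2 → SU N)
    (x y : Tor l × Fin 2 → Fin n → ℝ) : J1c B φ₀ (x - y) = J1c B φ₀ x - J1c B φ₀ y :=
  (J1l B φ₀).map_sub x y

lemma QB_pol (𝔇 : Dat N l n) (κ : ℝ) (fl : Finset Cn) (ξ η : Dat.II l → Fin n → ℝ) :
    QB 𝔇 κ fl (ξ + η) - QB 𝔇 κ fl (ξ - η) = 4 * QBb 𝔇 κ fl ξ η := by
  have sqp : ∀ {I : Type} [Fintype I] {x y u v : I → Fin n → ℝ}, u = x + y → v = x - y →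
      sq u - sq v = 4 * dt x y := by
    intro I _ x y u v hu hv
    rw [hu, hv]; exact sq_pol x y
  have t1 := sum_pol (Finset.univ : Finset Cn) (X := fun j => if j ∈ fl then
      sq (J1c 𝔇.B 𝔇.φ₀ (aof (ξ + η) j)) + 2 * κ * sq (𝔇.P (aof (ξ + η) j)) else 0)
    (Y := fun j => if j ∈ fl then
      sq (J1c 𝔇.B 𝔇.φ₀ (aof (ξ - η) j)) + 2 * κ * sq (𝔇.P (aof (ξ - η) j)) else 0)
    (Z := fun j => if j ∈ fl then
      dt (J1c 𝔇.B 𝔇.φ₀ (aof ξ j)) (J1c 𝔇.B 𝔇.φ₀ (aof η j)) +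
        2 * κ * dt (𝔇.P (aof ξ j)) (𝔇.P (aof η j)) else 0) fun j _ => by
      refine ite_pol ?_
      have h1 := sqp (u := J1c 𝔇.B 𝔇.φ₀ (aof (ξ + η) j)) (v := J1c 𝔇.B 𝔇.φ₀ (aof (ξ - η) j))
        (x := J1c 𝔇.B 𝔇.φ₀ (aof ξ j)) (y := J1c 𝔇.B 𝔇.φ₀ (aof η j))
        (by rw [aof_add, J1c_add]) (by rw [aof_sub, J1c_sub])
      have h2 := sqp (u := 𝔇.P (aof (ξ + η) j)) (v := 𝔇.P (aof (ξ - η) j))
        (x := 𝔇.P (aof ξ j)) (y := 𝔇.P (aof η j))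
        (by rw [aof_add, map_add]) (by rw [aof_sub, map_sub])
      linear_combination h1 + 2 * κ * h2
  have lk : ∀ (c c' : Cn) (k : Fin 2),
      sq (Jl 𝔇.B sE tE 𝔇.φ₀ (kof (ξ + η) c k) + aof (ξ + η) c' - aof (ξ + η) c) -
      sq (Jl 𝔇.B sE tE 𝔇.φ₀ (kof (ξ - η) c k) + aof (ξ - η) c' - aof (ξ - η) c) =
      4 * dt (Jl 𝔇.B sE tE 𝔇.φ₀ (kof ξ c k) + aof ξ c' - aof ξ c)
        (Jl 𝔇.B sE tE 𝔇.φ₀ (kof η c k) + aof η c' - aof η c) := by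
    intro c c' k
    refine sqp ?_ ?_
    · rw [kof_add, map_add, aof_add, aof_add]; abel
    · rw [kof_sub, map_sub, aof_sub, aof_sub]; abel
  have t2 := sum_pol (Finset.univ : Finset (Fin 2)) (X := fun b => if (0, b) ∈ fl ∧ (1, b) ∈ fl then
      sq (Jl 𝔇.B sE tE 𝔇.φ₀ (kof (ξ + η) (0, b) 0) + aof (ξ + η) (1, b) - aof (ξ + η) (0, b))
      else 0)
    (Y := fun b => if (0, b) ∈ fl ∧ (1, b) ∈ fl then
      sq (Jl 𝔇.B sE tE 𝔇.φ₀ (kof (ξ - η) (0, b) 0) + aof (ξ - η) (1, b) - aof (ξ - η) (0, b))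
      else 0)
    (Z := fun b => if (0, b) ∈ fl ∧ (1, b) ∈ fl then
      dt (Jl 𝔇.B sE tE 𝔇.φ₀ (kof ξ (0, b) 0) + aof ξ (1, b) - aof ξ (0, b))
      (Jl 𝔇.B sE tE 𝔇.φ₀ (kof η (0, b) 0) + aof η (1, b) - aof η (0, b)) else 0)
    fun b _ => ite_pol (lk (0, b) (1, b) 0)
  have t3 := sum_pol (Finset.univ : Finset (Fin 2)) (X := fun a => if (a, 0) ∈ fl ∧ (a, 1) ∈ fl then
      sq (Jl 𝔇.B sE tE 𝔇.φ₀ (kof (ξ + η) (a, 0) 1) + aof (ξ + η) (a, 1) - aof (ξ + η) (a, 0))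
      else 0)
    (Y := fun a => if (a, 0) ∈ fl ∧ (a, 1) ∈ fl then
      sq (Jl 𝔇.B sE tE 𝔇.φ₀ (kof (ξ - η) (a, 0) 1) + aof (ξ - η) (a, 1) - aof (ξ - η) (a, 0))
      else 0)
    (Z := fun a => if (a, 0) ∈ fl ∧ (a, 1) ∈ fl then
      dt (Jl 𝔇.B sE tE 𝔇.φ₀ (kof ξ (a, 0) 1) + aof ξ (a, 1) - aof ξ (a, 0))
      (Jl 𝔇.B sE tE 𝔇.φ₀ (kof η (a, 0) 1) + aof η (a, 1) - aof η (a, 0)) else 0)
    fun a _ => ite_pol (lk (a, 0) (a, 1) 1)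
  have t4 : (if (0, 0) ∈ fl ∧ (1, 0) ∉ fl then 2 * sq (kof (ξ + η) (0, 0) 0) else 0) -
      (if (0, 0) ∈ fl ∧ (1, 0) ∉ fl then 2 * sq (kof (ξ - η) (0, 0) 0) else 0) =
      4 * (if (0, 0) ∈ fl ∧ (1, 0) ∉ fl then 2 * dt (kof ξ (0, 0) 0) (kof η (0, 0) 0) else 0) := by
    refine ite_pol ?_
    have h := sqp (kof_add ξ η (0, 0) 0) (kof_sub ξ η (0, 0) 0)
    linear_combination 2 * h
  have t5 : (if (0, 0) ∈ fl ∧ (0, 1) ∉ fl then 2 * sq (kof (ξ + η) (0, 0) 1) else 0) -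
      (if (0, 0) ∈ fl ∧ (0, 1) ∉ fl then 2 * sq (kof (ξ - η) (0, 0) 1) else 0) =
      4 * (if (0, 0) ∈ fl ∧ (0, 1) ∉ fl then 2 * dt (kof ξ (0, 0) 1) (kof η (0, 0) 1) else 0) := by
    refine ite_pol ?_
    have h := sqp (kof_add ξ η (0, 0) 1) (kof_sub ξ η (0, 0) 1)
    linear_combination 2 * h
  have t6 : (if (0, 0) ∈ fl then (if (1, 0) ∈ fl ∧ (0, 1) ∈ fl ∧ (1, 1) ∈ fl then
        sq (kof (ξ + η) (0, 0) 0 + kof (ξ + η) (1, 0) 1 - kof (ξ + η) (0, 1) 0 -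
          kof (ξ + η) (0, 0) 1) else 0) else 0) -
      (if (0, 0) ∈ fl then (if (1, 0) ∈ fl ∧ (0, 1) ∈ fl ∧ (1, 1) ∈ fl then
        sq (kof (ξ - η) (0, 0) 0 + kof (ξ - η) (1, 0) 1 - kof (ξ - η) (0, 1) 0 -
          kof (ξ - η) (0, 0) 1) else 0) else 0) =
      4 * (if (0, 0) ∈ fl then (if (1, 0) ∈ fl ∧ (0, 1) ∈ fl ∧ (1, 1) ∈ fl then
        dt (kof ξ (0, 0) 0 + kof ξ (1, 0) 1 - kof ξ (0, 1) 0 - kof ξ (0, 0) 1)
        (kof η (0, 0) 0 + kof η (1, 0) 1 - kof η (0, 1) 0 - kof η (0, 0) 1) else 0) else 0) := by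
    refine ite_pol (ite_pol (sqp ?_ ?_))
    · simp only [kof_add]; abel
    · simp only [kof_sub]; abel
  unfold QB QBb
  linear_combination 1 / 4 * t1 + 1 / 2 * t2 + 1 / 2 * t3 + t4 + t5 + t6

/-- a symmetric bilinear form is determined by its quadratic form -/
lemma bil_eq (𝔇 : Dat N l n) (κ : ℝ) (fl : Finset Cn)
    (h : (Dat.II l → Fin n → ℝ) →L[ℝ] (Dat.II l → Fin n → ℝ) →L[ℝ] ℝ)
    (hs : ∀ ξ η, h ξ η = h η ξ) (hq : ∀ ξ, h ξ ξ = QB 𝔇 κ fl ξ) (ξ η : Dat.II l → Fin n → ℝ) :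
    h ξ η = QBb 𝔇 κ fl ξ η := by
  have h1 := QB_pol 𝔇 κ fl ξ η
  rw [← hq, ← hq] at h1
  simp only [map_add, map_sub, _root_.add_apply, _root_.sub_apply] at h1
  have h2 := hs ξ η
  linarith

/-! ### Weights -/

section weights

variable {𝔇 : Dat N l n} {M2 : ℝ} (S : Spec 𝔇 M2)

include S in
lemma dt_J0 (w v : Tor l → Fin n → ℝ) (a b : Tor l × Fin 2 → Fin n → ℝ) (a' b') :
    dt (Jl 𝔇.B sE tE 𝔇.φ₀ w + a - b) (Jl 𝔇.B sE tE 𝔇.φ₀ v + a' - b') =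
      inner ℝ (S.LD.J0 (toE w) + toE a - toE b) (S.LD.J0 (toE v) + toE a' - toE b') := by
  rw [dt_eq, map_sub, map_add, map_sub, map_add]
  rfl

lemma dt_smul_inv {I : Type*} [Fintype I] {c : ℝ} (hc : c ≠ 0) (x y : I → Fin n → ℝ) :
    dt (c • x) (c⁻¹ • y) = dt x y := by
  rw [dt_eq, dt_eq, map_smul, map_smul, inner_smul_left, inner_smul_right]
  simp only [conj_trivial]
  field_simp

lemma dt_self {I : Type*} [Fintype I] (x : I → Fin n → ℝ) : dt x x = ‖toE x‖ ^ 2 := by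
  rw [dt_eq, real_inner_self_eq_norm_sq]

lemma dt_neg {I : Type*} [Fintype I] (x y : I → Fin n → ℝ) : dt (-x) (-y) = dt x y := by
  rw [dt_eq, dt_eq, map_neg, map_neg, inner_neg_neg]

lemma J1c_smul (B : Frame (SU N) n) (φ₀ : Tor l × Fin 2 → SU N) (c : ℝ)
    (x : Tor l × Fin 2 → Fin n → ℝ) : J1c B φ₀ (c • x) = c • J1c B φ₀ x :=
  (J1l B φ₀).map_smul c x

include S in
lemma site_w {c : ℝ} (hc : c ≠ 0) (κ : ℝ) (a : Tor l × Fin 2 → Fin n → ℝ) :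
    dt (J1c 𝔇.B 𝔇.φ₀ (c • a)) (J1c 𝔇.B 𝔇.φ₀ (c⁻¹ • a)) +
      2 * κ * dt (𝔇.P (c • a)) (𝔇.P (c⁻¹ • a)) =
      ‖S.LD.J1 (toE a)‖ ^ 2 + 2 * κ * ‖S.LD.P (toE a)‖ ^ 2 := by
  rw [J1c_smul, J1c_smul, dt_smul_inv hc, map_smul, map_smul, dt_smul_inv hc, dt_self, dt_self]
  rfl

include S in
lemma hop_w {c : ℝ} (hc : c ≠ 0) (w : Tor l → Fin n → ℝ) (a b : Tor l × Fin 2 → Fin n → ℝ) :
    dt (Jl 𝔇.B sE tE 𝔇.φ₀ (c • w) + c • a - c • b)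
      (Jl 𝔇.B sE tE 𝔇.φ₀ (c⁻¹ • w) + c⁻¹ • a - c⁻¹ • b) =
      ‖S.LD.J0 (toE w) + toE a - toE b‖ ^ 2 := by
  rw [map_smul, map_smul, ← smul_add, ← smul_sub, ← smul_add, ← smul_sub, dt_smul_inv hc,
    dt_J0 S, real_inner_self_eq_norm_sq]

include S in
lemma hopj_w {q : ℝ} (w : Tor l → Fin n → ℝ) (a b : Tor l × Fin 2 → Fin n → ℝ) :
    dt (Jl 𝔇.B sE tE 𝔇.φ₀ (q • w) + q ^ 2 • a - b)
      (Jl 𝔇.B sE tE 𝔇.φ₀ (q⁻¹ • w) + (q ^ 2)⁻¹ • a - b) =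
      inner ℝ (S.LD.J0 (q • toE w) + q ^ 2 • toE a - toE b)
        (S.LD.J0 (q⁻¹ • toE w) + (q ^ 2)⁻¹ • toE a - toE b) := by
  rw [dt_J0 S]
  simp only [map_smul]

/-- direction `0` -/
lemma QBb_zero {q : ℝ} (hq : 0 < q) (κ : ℝ) (fl : Finset Cn) (ξ : Dat.II l → Fin n → ℝ) :
    QBb 𝔇 κ fl (mI 0 q ξ) (mI 0 q⁻¹ ξ) = CF S.LD κ q ((0, 0) ∈ fl) ((1, 0) ∈ fl)
      ((0, 1) ∈ fl) ((1, 1) ∈ fl) (toE (aof ξ (0, 0))) (toE (aof ξ (1, 0))) (toE (aof ξ (0, 1)))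
      (toE (aof ξ (1, 1))) (toE (kof ξ (0, 0) 0)) (toE (kof ξ (1, 0) 1)) (toE (kof ξ (0, 1) 0))
      (toE (kof ξ (0, 0) 1)) := by
  have hq0 : q ≠ 0 := hq.ne'
  have hq2 : (q ^ 2 : ℝ) ≠ 0 := by positivity
  have c00 : cj 0 (0, 0) = 0 := rfl
  have c10 : cj 0 (1, 0) = 1 := rfl
  have c01 : cj 0 (0, 1) = 0 := rfl
  have c11 : cj 0 (1, 1) = 1 := rfl
  have ha : ∀ (q : ℝ) (c : Cn), aof (mI 0 q ξ) c = (q ^ 2) ^ (cj 0 c) • aof ξ c :=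
    fun q c => aof_mI 0 q ξ c
  have hk0 : ∀ (q : ℝ) (c : Cn), kof (mI 0 q ξ) c 0 = ((q ^ 2) ^ (cj 0 c) * q) • kof ξ c 0 :=
    fun q c => kof_mI_same 0 q ξ c
  have hk1 : ∀ (q : ℝ) (c : Cn), kof (mI 0 q ξ) c 1 = (q ^ 2) ^ (cj 0 c) • kof ξ c 1 :=
    fun q c => kof_mI_ne (by decide) q ξ c
  have hi : ((q⁻¹) ^ 2 : ℝ) = (q ^ 2)⁻¹ := inv_pow q 2
  unfold QBb CF
  simp only [Fintype.sum_prod_type, Fin.sum_univ_two, ha, hk0, hk1, c00, c10, c01, c11, pow_zero,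
    pow_one, one_smul, one_mul, hi]
  have s00 := site_w S (c := 1) one_ne_zero κ (aof ξ (0, 0))
  have s01 := site_w S (c := 1) one_ne_zero κ (aof ξ (0, 1))
  have s10 := site_w S hq2 κ (aof ξ (1, 0))
  have s11 := site_w S hq2 κ (aof ξ (1, 1))
  have h1 := hopj_w S (q := q) (kof ξ (0, 0) 0) (aof ξ (1, 0)) (aof ξ (0, 0))
  have h3 := hopj_w S (q := q) (kof ξ (0, 1) 0) (aof ξ (1, 1)) (aof ξ (0, 1))
  have h4 := hop_w S (c := 1) one_ne_zero (kof ξ (0, 0) 1) (aof ξ (0, 1)) (aof ξ (0, 0))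
  have h2 := hop_w S hq2 (kof ξ (1, 0) 1) (aof ξ (1, 1)) (aof ξ (1, 0))
  rw [inv_one] at s00 s01 h4
  simp only [one_smul] at s00 s01 h4
  have d1 : dt (q • kof ξ (0, 0) 0) (q⁻¹ • kof ξ (0, 0) 0) = ‖toE (kof ξ (0, 0) 0)‖ ^ 2 := by
    rw [dt_smul_inv hq0, dt_self]
  have d4 : dt (kof ξ (0, 0) 1) (kof ξ (0, 0) 1) = ‖toE (kof ξ (0, 0) 1)‖ ^ 2 := dt_self _
  have pl : dt (q • kof ξ (0, 0) 0 + q ^ 2 • kof ξ (1, 0) 1 - q • kof ξ (0, 1) 0 - kof ξ (0, 0) 1)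
      (q⁻¹ • kof ξ (0, 0) 0 + (q ^ 2)⁻¹ • kof ξ (1, 0) 1 - q⁻¹ • kof ξ (0, 1) 0 -
        kof ξ (0, 0) 1) = inner ℝ (q • toE (kof ξ (0, 0) 0) + q ^ 2 • toE (kof ξ (1, 0) 1) -
          q • toE (kof ξ (0, 1) 0) - toE (kof ξ (0, 0) 1))
        (q⁻¹ • toE (kof ξ (0, 0) 0) + (q ^ 2)⁻¹ • toE (kof ξ (1, 0) 1) -
          q⁻¹ • toE (kof ξ (0, 1) 0) - toE (kof ξ (0, 0) 1)) := by
    rw [dt_eq]
    simp only [map_sub, map_add, map_smul]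
  rw [s00, s01, s10, s11, h1, h2, h3, h4, d1, d4, pl]
  by_cases gA : ((0, 0) : Cn) ∈ fl <;> by_cases gB : ((1, 0) : Cn) ∈ fl <;>
    by_cases gC : ((0, 1) : Cn) ∈ fl <;> by_cases gD : ((1, 1) : Cn) ∈ fl <;>
    simp only [gA, gB, gC, gD, if_true, if_false, and_self, and_false, false_and, true_and,
      and_true, not_true, not_false_iff] <;> ring

/-- direction `1` -/
lemma QBb_one {q : ℝ} (hq : 0 < q) (κ : ℝ) (fl : Finset Cn) (ξ : Dat.II l → Fin n → ℝ) :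
    QBb 𝔇 κ fl (mI 1 q ξ) (mI 1 q⁻¹ ξ) = CF S.LD κ q ((0, 0) ∈ fl) ((0, 1) ∈ fl)
      ((1, 0) ∈ fl) ((1, 1) ∈ fl) (toE (aof ξ (0, 0))) (toE (aof ξ (0, 1))) (toE (aof ξ (1, 0)))
      (toE (aof ξ (1, 1))) (toE (kof ξ (0, 0) 1)) (toE (kof ξ (0, 1) 0)) (toE (kof ξ (1, 0) 1))
      (toE (kof ξ (0, 0) 0)) := by
  have hq0 : q ≠ 0 := hq.ne'
  have hq2 : (q ^ 2 : ℝ) ≠ 0 := by positivity
  have c00 : cj 1 (0, 0) = 0 := rfl
  have c10 : cj 1 (1, 0) = 0 := rfl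
  have c01 : cj 1 (0, 1) = 1 := rfl
  have c11 : cj 1 (1, 1) = 1 := rfl
  have ha : ∀ (q : ℝ) (c : Cn), aof (mI 1 q ξ) c = (q ^ 2) ^ (cj 1 c) • aof ξ c :=
    fun q c => aof_mI 1 q ξ c
  have hk0 : ∀ (q : ℝ) (c : Cn), kof (mI 1 q ξ) c 1 = ((q ^ 2) ^ (cj 1 c) * q) • kof ξ c 1 :=
    fun q c => kof_mI_same 1 q ξ c
  have hk1 : ∀ (q : ℝ) (c : Cn), kof (mI 1 q ξ) c 0 = (q ^ 2) ^ (cj 1 c) • kof ξ c 0 :=
    fun q c => kof_mI_ne (by decide) q ξ c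
  have hi : ((q⁻¹) ^ 2 : ℝ) = (q ^ 2)⁻¹ := inv_pow q 2
  unfold QBb CF
  simp only [Fintype.sum_prod_type, Fin.sum_univ_two, ha, hk0, hk1, c00, c10, c01, c11, pow_zero,
    pow_one, one_smul, one_mul, hi]
  have s00 := site_w S (c := 1) one_ne_zero κ (aof ξ (0, 0))
  have s10 := site_w S (c := 1) one_ne_zero κ (aof ξ (1, 0))
  have s01 := site_w S hq2 κ (aof ξ (0, 1))
  have s11 := site_w S hq2 κ (aof ξ (1, 1))
  have h1 := hopj_w S (q := q) (kof ξ (0, 0) 1) (aof ξ (0, 1)) (aof ξ (0, 0))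
  have h3 := hopj_w S (q := q) (kof ξ (1, 0) 1) (aof ξ (1, 1)) (aof ξ (1, 0))
  have h4 := hop_w S (c := 1) one_ne_zero (kof ξ (0, 0) 0) (aof ξ (1, 0)) (aof ξ (0, 0))
  have h2 := hop_w S hq2 (kof ξ (0, 1) 0) (aof ξ (1, 1)) (aof ξ (0, 1))
  rw [inv_one] at s00 s10 h4
  simp only [one_smul] at s00 s10 h4
  have d1 : dt (q • kof ξ (0, 0) 1) (q⁻¹ • kof ξ (0, 0) 1) = ‖toE (kof ξ (0, 0) 1)‖ ^ 2 := by
    rw [dt_smul_inv hq0, dt_self]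
  have d4 : dt (kof ξ (0, 0) 0) (kof ξ (0, 0) 0) = ‖toE (kof ξ (0, 0) 0)‖ ^ 2 := dt_self _
  have pl : dt (kof ξ (0, 0) 0 + q • kof ξ (1, 0) 1 - q ^ 2 • kof ξ (0, 1) 0 - q • kof ξ (0, 0) 1)
      (kof ξ (0, 0) 0 + q⁻¹ • kof ξ (1, 0) 1 - (q ^ 2)⁻¹ • kof ξ (0, 1) 0 -
        q⁻¹ • kof ξ (0, 0) 1) = inner ℝ (q • toE (kof ξ (0, 0) 1) + q ^ 2 • toE (kof ξ (0, 1) 0) -
          q • toE (kof ξ (1, 0) 1) - toE (kof ξ (0, 0) 0))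
        (q⁻¹ • toE (kof ξ (0, 0) 1) + (q ^ 2)⁻¹ • toE (kof ξ (0, 1) 0) -
          q⁻¹ • toE (kof ξ (1, 0) 1) - toE (kof ξ (0, 0) 0)) := by
    rw [← dt_neg, dt_eq]
    congr 1
    · simp only [neg_sub, map_sub, map_add, map_smul]; abel
    · simp only [neg_sub, map_sub, map_add, map_smul]; abel
  rw [s00, s01, s10, s11, h1, h2, h3, h4, d1, d4, pl]
  by_cases gA : ((0, 0) : Cn) ∈ fl <;> by_cases gB : ((1, 0) : Cn) ∈ fl <;>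
    by_cases gC : ((0, 1) : Cn) ∈ fl <;> by_cases gD : ((1, 1) : Cn) ∈ fl <;>
    simp only [gA, gB, gC, gD, if_true, if_false, and_self, and_false, false_and, true_and,
      and_true, not_true, not_false_iff] <;> ring

lemma sq_split (ξ : Dat.II l → Fin n → ℝ) (c : Cn) :
    ∑ i, ∑ a, ξ (c, i) a ^ 2 = sq (aof ξ c) + sq (kof ξ c 0) + sq (kof ξ c 1) := by
  unfold sq aof kof
  have h1 : ∑ i : Tor l × Fin 4, ∑ a, ξ (c, i) a ^ 2 =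
      ∑ y : Tor l, ∑ k : Fin 4, ∑ a, ξ (c, (y, k)) a ^ 2 := Fintype.sum_prod_type _
  have h2 : ∑ e : Tor l × Fin 2, ∑ a, ξ (c, (e.1, Fin.natAdd 2 e.2)) a ^ 2 =
      ∑ y : Tor l, ∑ k : Fin 2, ∑ a, ξ (c, (y, Fin.natAdd 2 k)) a ^ 2 := Fintype.sum_prod_type _
  rw [h1, h2, ← Finset.sum_add_distrib, ← Finset.sum_add_distrib]
  refine Finset.sum_congr rfl fun y _ => ?_
  rw [Fin.sum_univ_four, Fin.sum_univ_two]
  have e0 : (Fin.castAdd 2 (0 : Fin 2) : Fin 4) = 0 := rfl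
  have e1 : (Fin.castAdd 2 (1 : Fin 2) : Fin 4) = 1 := rfl
  have e2 : (Fin.natAdd 2 (0 : Fin 2) : Fin 4) = 2 := rfl
  have e3 : (Fin.natAdd 2 (1 : Fin 2) : Fin 4) = 3 := rfl
  rw [e0, e1, e2, e3]
  ring

include S in
/-- **The conjugated form of a block, concrete version.** -/
theorem block_conj {q : ℝ} (hq : 0 < q) (hK : q ^ 2 + (q ^ 2)⁻¹ - 2 < M2) {κ : ℝ}
    (hκ : kapc M2 8 q ≤ κ) (j : Fin 2) (fl : Finset Cn) (ξ : Dat.II l → Fin n → ℝ) :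
    (if (0, 0) ∈ fl then cofc M2 8 q * ∑ i, ∑ a, ξ ((0, 0), i) a ^ 2 else 0) ≤
      QBb 𝔇 κ fl (mI j q ξ) (mI j q⁻¹ ξ) := by
  have h3 := CF_lower S.LD hq hK hκ
  have e := sq_split ξ (0, 0)
  have eM : S.LD.M2 = M2 := rfl
  have eB : S.LD.B0 = 8 := rfl
  rw [eM, eB] at h3
  fin_cases j
  · show _ ≤ QBb 𝔇 κ fl (mI 0 q ξ) (mI 0 q⁻¹ ξ)
    rw [QBb_zero S hq, e]
    refine le_trans (le_of_eq ?_) (h3 _ _ _ _ _ _ _ _ _ _ _ _)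
    rw [norm_toE, norm_toE, norm_toE]
    by_cases h : ((0, 0) : Cn) ∈ fl
    · simp only [h, if_true]
    · simp only [h, if_false]
  · show _ ≤ QBb 𝔇 κ fl (mI 1 q ξ) (mI 1 q⁻¹ ξ)
    rw [QBb_one S hq, e]
    refine le_trans (le_of_eq ?_) (h3 _ _ _ _ _ _ _ _ _ _ _ _)
    rw [norm_toE, norm_toE, norm_toE]
    by_cases h : ((0, 0) : Cn) ∈ fl
    · simp only [h, if_true]; ring
    · simp only [h, if_false]

end weights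

end

end Pool.Agent.N990.TW
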