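import Pool.Agent.N990.Mach.Iface

/-!
# Harmonic extension with exponential decay from conjugated coercivity

A sum of bilinear forms of range one which stays coercive when conjugated with weights acting on
the values of the fields; the rate of decay of the harmonic extension is the rate of the weights.
-/

set_option autoImplicit false
set_option linter.unusedSectionVars false

open Finset
open scoped Classical

namespace Pool.Agent.N990.HarmC

open Pool.Agent.N990.Mach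

noncomputable section

/-- the constant -/
def Ch (c0 Cb Cn Cw : ℝ) : ℝ := 1 + Cn * Cb * Cw ^ 3 / c0

lemma Ch_ge {c0 Cb Cn Cw : ℝ} (h0 : 0 < c0) (h1 : 0 ≤ Cb) (h2 : 1 ≤ Cn) (h3 : 1 ≤ Cw) :
    1 ≤ Ch c0 Cb Cn Cw := by
  unfold Ch
  have : 0 ≤ Cn * Cb * Cw ^ 3 / c0 := by positivity
  linarith

section main

variable {ι τ V R : Type*} [NormedAddCommGroup V] [NormedSpace ℝ V] [FiniteDimensional ℝ V]

/-- the data -/
structure Dat (ι τ V R : Type*) [NormedAddCommGroup V] [NormedSpace ℝ V]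
    (c0 Cb Cn Cw α : ℝ) where
  d : ι → ι → ℕ
  Lam : Finset ι
  T : Finset τ
  sp : τ → Finset ι
  diam : ∀ t ∈ T, ∀ x ∈ sp t, ∀ y ∈ sp t, d x y ≤ 1
  tcard : ∀ A : Finset ι, ((tch T sp A).card : ℝ) ≤ Cn * A.card
  b : τ → (ι → V) →ₗ[ℝ] (ι → V) →ₗ[ℝ] ℝ
  b_bd : ∀ t ∈ T, ∀ (φ : ι → V) (w : ι → V) (x y : ℝ), (∀ i ∈ sp t, ‖φ i‖ ≤ x) →
    (∀ i ∈ sp t, ‖w i‖ ≤ y) → |b t φ w| ≤ Cb * x * y
  /-- weights -/
  W : R → ι → V → V
  W' : R → ι → V → V
  wt : R → ι → ℝ
  wt_pos : ∀ s x, 0 < wt s x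
  W_zero : ∀ s x, W s x 0 = 0
  W_inv : ∀ s x v, W' s x (W s x v) = v
  W_le : ∀ s x v, ‖W s x v‖ ≤ Cw * wt s x * ‖v‖
  W'_le : ∀ s x v, ‖W' s x v‖ ≤ Cw * (wt s x)⁻¹ * ‖v‖
  wt_near : ∀ s x y, d x y ≤ 1 → wt s x ≤ Cw * wt s y
  wt_dec : ∀ x y, ∃ s, (wt s y)⁻¹ * wt s x ≤ Real.exp (-(α * d y x))
  coer : ∀ s, ∀ A ⊆ Lam, ∀ u : ι → V, (∀ y, y ∉ A → u y = 0) →
    c0 * ∑ x ∈ A, ‖u x‖ ^ 2 ≤
      ∑ t ∈ tch T sp A, b t (fun x => W s x (u x)) (fun x => W' s x (u x))

variable {c0 Cb Cn Cw α : ℝ}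

/-- locality in the second slot -/
lemma Dat.loc (S : Dat ι τ V R c0 Cb Cn Cw α) {t : τ} (ht : t ∈ S.T) (φ : ι → V) {w w' : ι → V}
    (h : ∀ i ∈ S.sp t, w i = w' i) : S.b t φ w = S.b t φ w' := by
  obtain ⟨x, hx⟩ : ∃ x : ℝ, ∀ i ∈ S.sp t, ‖φ i‖ ≤ x :=
    ⟨∑ i ∈ S.sp t, ‖φ i‖, fun i hi => Finset.single_le_sum (f := fun i => ‖φ i‖)
      (fun _ _ => norm_nonneg _) hi⟩
  have := S.b_bd t ht φ (w - w') x 0 hx (fun i hi => by simp [h i hi])
  rw [mul_zero, map_sub] at this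
  have h2 := abs_nonpos_iff.1 this
  linarith

/-- the bilinear form of the region -/
def Dat.B (S : Dat ι τ V R c0 Cb Cn Cw α) (A : Finset ι) : (ι → V) →ₗ[ℝ] (ι → V) →ₗ[ℝ] ℝ :=
  ∑ t ∈ tch S.T S.sp A, S.b t

lemma Dat.B_apply (S : Dat ι τ V R c0 Cb Cn Cw α) (A : Finset ι) (φ w : ι → V) :
    S.B A φ w = ∑ t ∈ tch S.T S.sp A, S.b t φ w := by
  unfold Dat.B
  simp [LinearMap.sum_apply]

/-- extension by zero -/
def extL (V : Type*) [NormedAddCommGroup V] [NormedSpace ℝ V] (A : Finset ι) :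
    (A → V) →ₗ[ℝ] (ι → V) where
  toFun u := fun x => if h : x ∈ A then u ⟨x, h⟩ else 0
  map_add' u v := by
    funext x
    simp only [Pi.add_apply]
    split_ifs <;> simp
  map_smul' c u := by
    funext x
    simp only [Pi.smul_apply, RingHom.id_apply]
    split_ifs <;> simp

lemma extL_mem {A : Finset ι} (u : A → V) {x : ι} (h : x ∈ A) : extL V A u x = u ⟨x, h⟩ := by
  simp [extL, h]

lemma extL_out {A : Finset ι} (u : A → V) {x : ι} (h : x ∉ A) : extL V A u x = 0 := by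
  simp [extL, h]

lemma extL_restr {A : Finset ι} {χ : ι → V} (hχ : ∀ x, x ∉ A → χ x = 0) :
    extL V A (fun x => χ x.1) = χ := by
  funext x
  by_cases h : x ∈ A
  · rw [extL_mem _ h]
  · rw [extL_out _ h, hχ x h]

/-- the test function of the conjugated form -/
lemma Dat.test (S : Dat ι τ V R c0 Cb Cn Cw α) {A : Finset ι} (hA : A ⊆ S.Lam) (s : R)
    (k : ι → V) (hk : ∀ x, x ∉ A → k x = 0) :
    c0 * ∑ x ∈ A, ‖S.W s x (k x)‖ ^ 2 ≤ S.B A (fun x => S.W s x (S.W s x (k x))) k := by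
  have h := S.coer s A hA (fun x => S.W s x (k x)) (fun x hx => by
    simp only [hk x hx, S.W_zero])
  simp only [S.W_inv] at h
  rw [S.B_apply]
  exact h

/-- solvability -/
lemma Dat.exists_sol (S : Dat ι τ V R c0 Cb Cn Cw α) (h0 : 0 < c0) {A : Finset ι}
    (hA : A ⊆ S.Lam) (ψ : ι → V) : ∃ k : ι → V, (∀ x, x ∉ A → k x = 0) ∧
      ∀ χ : ι → V, (∀ x, x ∉ A → χ x = 0) → S.B A χ k = -S.B A χ ψ := by
  let W := A → V
  let Φ : W →ₗ[ℝ] Module.Dual ℝ W := ((S.B A).compl₁₂ (extL V A) (extL V A)).flip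
  have hΦ : ∀ u v, Φ u v = S.B A (extL V A v) (extL V A u) := fun u v => rfl
  have hinj : Function.Injective Φ := by
    rw [← LinearMap.ker_eq_bot, LinearMap.ker_eq_bot']
    intro u hu
    funext x
    obtain ⟨s, -⟩ := S.wt_dec x.1 x.1
    have h2 := S.test hA s (extL V A u) (fun x hx => extL_out u hx)
    have h1 : S.B A (fun x => S.W s x (S.W s x (extL V A u x))) (extL V A u) = 0 := by
      have h3 : (fun x => S.W s x (S.W s x (extL V A u x))) =
          extL V A (fun x => S.W s x (S.W s x (extL V A u x))) := by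
        symm
        refine extL_restr (χ := fun x => S.W s x (S.W s x (extL V A u x))) fun x hx => ?_
        rw [extL_out u hx, S.W_zero, S.W_zero]
      rw [h3, ← hΦ, hu]
      rfl
    rw [h1] at h2
    have h3 : ∑ x ∈ A, ‖S.W s x (extL V A u x)‖ ^ 2 = 0 := by
      have h4 : 0 ≤ ∑ x ∈ A, ‖S.W s x (extL V A u x)‖ ^ 2 :=
        Finset.sum_nonneg fun _ _ => by positivity
      nlinarith
    rw [Finset.sum_eq_zero_iff_of_nonneg (fun _ _ => by positivity)] at h3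
    have h5 := h3 x.1 x.2
    have h6 : S.W s x.1 (extL V A u x.1) = 0 := by simpa using h5
    have h7 := S.W_inv s x.1 (extL V A u x.1)
    have h8 := S.W'_le s x.1 (0 : V)
    rw [h6] at h7
    rw [norm_zero, mul_zero] at h8
    have h9 : S.W' s x.1 0 = 0 := norm_le_zero_iff.1 h8
    rw [h9, extL_mem u x.2] at h7
    exact h7.symm
  have hsurj : Function.Surjective Φ :=
    (LinearMap.injective_iff_surjective_of_finrank_eq_finrank
      (Subspace.dual_finrank_eq).symm).1 hinj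
  obtain ⟨u, hu⟩ := hsurj (-((S.B A).flip ψ ∘ₗ extL V A))
  refine ⟨extL V A u, fun x hx => extL_out u hx, fun χ hχ => ?_⟩
  have h1 : Φ u (fun x => χ x.1) = -S.B A χ ψ := by
    rw [hu]
    simp only [LinearMap.neg_apply, LinearMap.coe_comp, Function.comp_apply, LinearMap.flip_apply]
    rw [extL_restr hχ]
  rw [hΦ, extL_restr hχ] at h1
  exact h1

/-- decay of the response to a single boundary value -/
lemma Dat.decay (S : Dat ι τ V R c0 Cb Cn Cw α) (h0 : 0 < c0) (hb : 0 ≤ Cb) (hn : 1 ≤ Cn)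
    (hw : 1 ≤ Cw) {A : Finset ι} (hA : A ⊆ S.Lam) (x0 : ι) (e : V) (k : ι → V)
    (hk : ∀ x, x ∉ A → k x = 0)
    (hk2 : ∀ χ : ι → V, (∀ x, x ∉ A → χ x = 0) → S.B A χ k = -S.B A χ (Pi.single x0 e))
    (y : ι) : ‖k y‖ ≤ Ch c0 Cb Cn Cw * (Real.exp (-(α * S.d y x0)) * ‖e‖) := by
  obtain ⟨s, hs⟩ := S.wt_dec x0 y
  set u : ι → V := fun x => S.W s x (k x) with hu
  have hu0 : ∀ x, x ∉ A → u x = 0 := fun x hx => by rw [hu]; simp only [hk x hx, S.W_zero]
  set χ : ι → V := fun x => S.W s x (u x) with hχ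
  have hχ0 : ∀ x, x ∉ A → χ x = 0 := fun x hx => by rw [hχ]; simp only [hu0 x hx, S.W_zero]
  set Q : ℝ := ∑ x ∈ A, ‖u x‖ ^ 2 with hQ
  have hQ0 : 0 ≤ Q := Finset.sum_nonneg fun _ _ => by positivity
  set r : ℝ := Real.sqrt Q with hr
  have hr0 : 0 ≤ r := Real.sqrt_nonneg _
  have hrQ : r ^ 2 = Q := Real.sq_sqrt hQ0
  have hle : ∀ x, ‖u x‖ ≤ r := by
    intro x
    by_cases hx : x ∈ A
    · rw [hr]
      apply Real.le_sqrt_of_sq_le
      exact Finset.single_le_sum (f := fun x => ‖u x‖ ^ 2) (fun _ _ => by positivity) hx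
    · rw [hu0 x hx]; simpa using hr0
  have hwt := S.wt_pos s
  have hsum : c0 * Q ≤ S.B A χ k := S.test hA s k hk
  -- the right hand side
  have hrhs : |S.B A χ (Pi.single x0 e)| ≤ Cn * (Cb * (Cw * (Cw * S.wt s x0) * r) * ‖e‖) := by
    rw [S.B_apply]
    have hpos : 0 ≤ Cb * (Cw * (Cw * S.wt s x0) * r) * ‖e‖ := by
      have := (hwt x0).le
      positivity
    have h1 : ∀ t ∈ tch S.T S.sp A, |S.b t χ (Pi.single x0 e)| ≤
        if x0 ∈ S.sp t then Cb * (Cw * (Cw * S.wt s x0) * r) * ‖e‖ else 0 := by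
      intro t ht
      have htT : t ∈ S.T := by unfold tch at ht; exact (Finset.mem_filter.1 ht).1
      split_ifs with hx0
      · refine S.b_bd t htT _ _ _ _ (fun x hx => ?_) (fun x hx => ?_)
        · rw [hχ]; simp only
          refine (S.W_le s x (u x)).trans ?_
          have h2 := S.wt_near s x x0 (S.diam t htT x hx x0 hx0)
          have h3 := (hwt x).le
          have h4 := (hwt x0).le
          exact mul_le_mul (mul_le_mul_of_nonneg_left h2 (by linarith)) (hle x) (norm_nonneg _)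
            (by positivity)
        · by_cases hxx : x = x0
          · subst hxx; simp
          · rw [Pi.single_eq_of_ne hxx]; simp
      · have : S.b t χ (Pi.single x0 e) = S.b t χ 0 := by
          refine S.loc htT χ fun i hi => ?_
          rw [Pi.single_eq_of_ne (by rintro rfl; exact hx0 hi)]; rfl
        rw [this]; simp
    refine (Finset.abs_sum_le_sum_abs _ _).trans ((Finset.sum_le_sum h1).trans ?_)
    rw [← Finset.sum_filter, Finset.sum_const, nsmul_eq_mul]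
    refine mul_le_mul_of_nonneg_right ?_ hpos
    have h2 := S.tcard {x0}
    rw [Finset.card_singleton, Nat.cast_one, mul_one] at h2
    refine le_trans ?_ h2
    have : (tch S.T S.sp A).filter (fun t => x0 ∈ S.sp t) ⊆ tch S.T S.sp {x0} := by
      intro t ht
      rw [Finset.mem_filter] at ht
      unfold tch at ht ⊢
      rw [Finset.mem_filter] at ht ⊢
      refine ⟨ht.1.1, ?_⟩
      rw [Finset.not_disjoint_iff]
      exact ⟨x0, ht.2, Finset.mem_singleton_self x0⟩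
    exact_mod_cast Finset.card_le_card this
  have h1 : c0 * r ^ 2 ≤ (Cn * Cb * Cw ^ 2 * S.wt s x0 * ‖e‖) * r := by
    rw [hrQ]
    rw [hk2 χ hχ0] at hsum
    calc c0 * Q ≤ -S.B A χ (Pi.single x0 e) := hsum
      _ ≤ |S.B A χ (Pi.single x0 e)| := neg_le_abs _
      _ ≤ Cn * (Cb * (Cw * (Cw * S.wt s x0) * r) * ‖e‖) := hrhs
      _ = (Cn * Cb * Cw ^ 2 * S.wt s x0 * ‖e‖) * r := by ring
  have h2 : r ≤ Cn * Cb * Cw ^ 2 / c0 * S.wt s x0 * ‖e‖ := by
    have h00 := (hwt x0).le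
    rcases hr0.eq_or_lt with h | h
    · rw [← h]; positivity
    · have h3 : c0 * r ≤ Cn * Cb * Cw ^ 2 * S.wt s x0 * ‖e‖ := by
        refine le_of_mul_le_mul_right ?_ h
        calc c0 * r * r = c0 * r ^ 2 := by ring
          _ ≤ _ := h1
      have h4 : Cn * Cb * Cw ^ 2 / c0 * S.wt s x0 * ‖e‖ =
          (Cn * Cb * Cw ^ 2 * S.wt s x0 * ‖e‖) / c0 := by ring
      rw [h4, le_div_iff₀ h0]
      linarith
  have h3 : ‖k y‖ ≤ Cw * (S.wt s y)⁻¹ * r := by
    have h4 := S.W_inv s y (k y)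
    have h5 := S.W'_le s y (u y)
    have h6 : S.W' s y (u y) = k y := h4
    rw [h6] at h5
    have h7 := inv_nonneg.2 (hwt y).le
    exact h5.trans (mul_le_mul_of_nonneg_left (hle y) (by positivity))
  have h7 := inv_nonneg.2 (hwt y).le
  calc ‖k y‖ ≤ Cw * (S.wt s y)⁻¹ * r := h3
    _ ≤ Cw * (S.wt s y)⁻¹ * (Cn * Cb * Cw ^ 2 / c0 * S.wt s x0 * ‖e‖) :=
        mul_le_mul_of_nonneg_left h2 (by positivity)
    _ = (Cn * Cb * Cw ^ 3 / c0) * (((S.wt s y)⁻¹ * S.wt s x0) * ‖e‖) := by ring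
    _ ≤ (Cn * Cb * Cw ^ 3 / c0) * (Real.exp (-(α * S.d y x0)) * ‖e‖) := by
        refine mul_le_mul_of_nonneg_left (mul_le_mul_of_nonneg_right hs (norm_nonneg _)) ?_
        positivity
    _ ≤ Ch c0 Cb Cn Cw * (Real.exp (-(α * S.d y x0)) * ‖e‖) := by
        refine mul_le_mul_of_nonneg_right ?_ (by positivity)
        unfold Ch
        linarith

/-- **Harmonic extension with exponential decay** (the field `harm` of `Sys`). -/
theorem Dat.harm (S : Dat ι τ V R c0 Cb Cn Cw α) (h0 : 0 < c0) (hb : 0 ≤ Cb) (hn : 1 ≤ Cn)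
    (hw : 1 ≤ Cw) :
    ∀ A ⊆ S.Lam, ∀ z : ι → V, ∃ w : ι → V, (∀ y, y ∉ A → w y = z y) ∧
    (∀ φ : ι → V, (∀ y, y ∉ A → φ y = 0) → ∑ t ∈ tch S.T S.sp A, S.b t φ w = 0) ∧
    ∀ y ∈ A, ‖w y‖ ≤ Ch c0 Cb Cn Cw *
      ∑ x ∈ cl S.T S.sp A \ A, Real.exp (-(α * S.d y x)) * ‖z x‖ := by
  intro A hA z
  choose k hk hk2 using fun x : ι => S.exists_sol h0 hA (Pi.single x (z x))
  set F1 : ι → V := fun x => if x ∈ A then 0 else z x with hF1
  set F2 : ι → V := ∑ x ∈ cl S.T S.sp A \ A, k x with hF2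
  set F3 : ι → V := ∑ x ∈ cl S.T S.sp A \ A, Pi.single x (z x) with hF3
  have hF3a : ∀ y, F3 y = if y ∈ cl S.T S.sp A \ A then z y else 0 := by
    intro y
    rw [hF3, Finset.sum_apply]
    by_cases hy : y ∈ cl S.T S.sp A \ A
    · rw [if_pos hy, Finset.sum_eq_single y]
      · simp
      · intro x _ hx; exact Pi.single_eq_of_ne (Ne.symm hx) _
      · intro h'; exact absurd hy h'
    · rw [if_neg hy]
      refine Finset.sum_eq_zero fun x hx => ?_
      exact Pi.single_eq_of_ne (by rintro rfl; exact hy hx) _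
  refine ⟨F1 + F2, fun y hy => ?_, fun φ hφ => ?_, fun y hy => ?_⟩
  · rw [Pi.add_apply, hF1, hF2, Finset.sum_apply, Finset.sum_eq_zero, add_zero]
    · simp only [if_neg hy]
    · intro x _; exact hk x y hy
  · have e1 : ∀ t ∈ tch S.T S.sp A, S.b t φ (F1 + F2) = S.b t φ F3 + S.b t φ F2 := by
      intro t ht
      have htT : t ∈ S.T := by unfold tch at ht; exact (Finset.mem_filter.1 ht).1
      rw [map_add]
      congr 1
      refine S.loc htT φ fun i hi => ?_
      rw [hF3a, hF1]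
      simp only
      by_cases hA' : i ∈ A
      · rw [if_pos hA', if_neg]
        rw [Finset.mem_sdiff]; exact fun h' => h'.2 hA'
      · rw [if_neg hA', if_pos]
        rw [Finset.mem_sdiff]
        refine ⟨?_, hA'⟩
        unfold cl
        rw [Finset.mem_biUnion]
        exact ⟨t, ht, hi⟩
    rw [Finset.sum_congr rfl e1, Finset.sum_add_distrib, ← S.B_apply, ← S.B_apply, hF2, hF3,
      map_sum, map_sum, ← Finset.sum_add_distrib]
    refine Finset.sum_eq_zero fun x _ => ?_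
    rw [hk2 x φ hφ, add_neg_cancel]
  · rw [Pi.add_apply, hF1, hF2, Finset.sum_apply]
    simp only [if_pos hy, zero_add]
    refine (norm_sum_le _ _).trans ?_
    rw [Finset.mul_sum]
    refine Finset.sum_le_sum fun x _ => ?_
    exact S.decay h0 hb hn hw hA x (z x) (k x) (hk x) (hk2 x) y

end main

end

end Pool.Agent.N990.HarmC
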