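import Mathlib
import Pool.Agent.N984.TW.SysF
import Pool.Agent.N990.TW.Conv
import Pool.Agent.N990.TW.HarmC

/-!
# The sharp rate of the harmonic extension of the twisted theory
-/

open MeasureTheory Matrix Filter
open scoped Matrix.Norms.Frobenius
open Pool.Agent.H906R3.YM Pool.Agent.W793.YM Pool.Agent.TH618.YM
open Pool.Agent.N990.Mach (tch cl)
open Pool.Agent.N984.TW Pool.Agent.N990.TWI
open Pool.Agent.N984.TW.Dat (TT spt flg spt_diam TT_card flg_ne)

namespace Pool.Agent.N990.TW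

set_option linter.unusedSectionVars false
set_option linter.unusedSimpArgs false

noncomputable section

variable {N l n : ℕ} [NeZero N] [NeZero l]

/-! ### Weights on the plane -/

/-- coordinate of a site -/
def cX (j : Fin 2) (X : Pl) : ℤ := if j = 0 then X.1 else X.2

lemma cX_off (j : Fin 2) (t : Pl) (c : Cn) : cX j (t + off c) = cX j t + cj j c := by
  unfold cX cj off
  split_ifs <;> simp

lemma cX_le (j : Fin 2) (X Y : Pl) : |(cX j X : ℝ) - cX j Y| ≤ dP X Y := by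
  have h : (cX j X - cX j Y).natAbs ≤ dP X Y := by
    unfold cX dP
    split_ifs
    · exact le_max_left _ _
    · exact le_max_right _ _
  have h2 : |cX j X - cX j Y| ≤ (dP X Y : ℤ) := by
    rw [Int.abs_eq_natAbs]
    exact_mod_cast h
  exact_mod_cast h2

lemma cX_max (X Y : Pl) : ∃ j : Fin 2, |(cX j X : ℝ) - cX j Y| = dP X Y := by
  have key : ∀ j : Fin 2, (cX j X - cX j Y).natAbs = dP X Y →
      |(cX j X : ℝ) - cX j Y| = dP X Y := by
    intro j h
    have h2 : |cX j X - cX j Y| = (dP X Y : ℤ) := by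
      rw [Int.abs_eq_natAbs]
      exact_mod_cast h
    exact_mod_cast h2
  rcases le_total (X.1 - Y.1).natAbs (X.2 - Y.2).natAbs with h | h
  · refine ⟨1, key 1 ?_⟩
    unfold dP
    rw [max_eq_right h]
    rfl
  · refine ⟨0, key 0 ?_⟩
    unfold dP
    rw [max_eq_left h]
    rfl

/-- the sign -/
def sg (s : Bool) : ℝ := if s then 1 else -1

lemma sg_abs (s : Bool) : |sg s| = 1 := by
  cases s <;> simp [sg]

/-- scalar weight at a site -/
def wtS (α : ℝ) (s : Fin 2 × Bool) (X : Pl) : ℝ := Real.exp (sg s.2 * α * cX s.1 X)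

/-- the factor of a component -/
def fac (j : Fin 2) (q : ℝ) (p : (Tor l × Fin 4) × Fin n) : ℝ :=
  if p.1.2 = Fin.castAdd 2 j then q else 1

/-- componentwise multiplication -/
def mulE (j : Fin 2) (q t : ℝ) (v : EV l n) : EV l n :=
  WithLp.toLp 2 fun p => t * fac j q p * v p

lemma mulE_apply (j : Fin 2) (q t : ℝ) (v : EV l n) (p : (Tor l × Fin 4) × Fin n) :
    mulE j q t v p = t * fac j q p * v p := rfl

lemma mulE_zero (j : Fin 2) (q t : ℝ) : mulE j q t (0 : EV l n) = 0 := by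
  ext p
  rw [mulE_apply]
  simp

lemma mulE_inv (j : Fin 2) {q t : ℝ} (hq : q ≠ 0) (ht : t ≠ 0) (v : EV l n) :
    mulE j q⁻¹ t⁻¹ (mulE j q t v) = v := by
  ext p
  rw [mulE_apply, mulE_apply]
  unfold fac
  split_ifs
  · field_simp
  · field_simp

lemma mulE_norm (j : Fin 2) {q t C : ℝ} (hq0 : 0 < q) (hq : q ≤ C) (hC : 1 ≤ C) (ht : 0 < t)
    (v : EV l n) : ‖mulE j q t v‖ ≤ C * t * ‖v‖ := by
  have h : ‖mulE j q t v‖ ^ 2 ≤ (C * t * ‖v‖) ^ 2 := by
    rw [norm_sq_E, mul_pow, norm_sq_E, Finset.mul_sum]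
    refine Finset.sum_le_sum fun i _ => ?_
    rw [Finset.mul_sum]
    refine Finset.sum_le_sum fun a _ => ?_
    rw [mulE_apply, mul_pow]
    refine mul_le_mul_of_nonneg_right ?_ (sq_nonneg _)
    have h1 : 0 ≤ fac j q (i, a) ∧ fac j q (i, a) ≤ C := by
      unfold fac
      split_ifs
      · exact ⟨hq0.le, hq⟩
      · exact ⟨zero_le_one, hC⟩
    have h2 : t * fac j q (i, a) ≤ C * t := by
      rw [mul_comm C t]
      exact mul_le_mul_of_nonneg_left h1.2 ht.le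
    exact pow_le_pow_left₀ (mul_nonneg ht.le h1.1) h2 2
  exact le_of_sq_le_sq h (by positivity)

/-- the factor `q` -/
def qq (α : ℝ) (s : Bool) : ℝ := Real.exp (sg s * α / 2)

lemma qq_pos (α : ℝ) (s : Bool) : 0 < qq α s := Real.exp_pos _

lemma wtS_off (α : ℝ) (s : Fin 2 × Bool) (t : Pl) (c : Cn) :
    wtS α s (t + off c) = wtS α s t * (qq α s.2 ^ 2) ^ (cj s.1 c) := by
  unfold wtS qq
  rw [cX_off, ← Real.exp_nat_mul, ← Real.exp_nat_mul, ← Real.exp_add]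
  congr 1
  push_cast
  ring

lemma xw_mul (α : ℝ) (s : Fin 2 × Bool) (fl : Finset Cn) (t : Pl) (u : Pl → EV l n) :
    Dat.xw fl t (fun X => mulE s.1 (qq α s.2) (wtS α s X) (u X)) =
      wtS α s t • mI s.1 (qq α s.2) (Dat.xw fl t u) := by
  funext p a
  show Dat.xw fl t _ p a = wtS α s t * (wI s.1 (qq α s.2) p * Dat.xw fl t u p a)
  rw [Dat.xw_apply, Dat.xw_apply]
  split_ifs with hp
  · rw [mulE_apply, wtS_off]
    unfold wI fac
    ring
  · ring

lemma xw_mul' (α : ℝ) (s : Fin 2 × Bool) (fl : Finset Cn) (t : Pl) (u : Pl → EV l n) :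
    Dat.xw fl t (fun X => mulE s.1 (qq α s.2)⁻¹ (wtS α s X)⁻¹ (u X)) =
      (wtS α s t)⁻¹ • mI s.1 (qq α s.2)⁻¹ (Dat.xw fl t u) := by
  funext p a
  show Dat.xw fl t _ p a = (wtS α s t)⁻¹ * (wI s.1 (qq α s.2)⁻¹ p * Dat.xw fl t u p a)
  rw [Dat.xw_apply, Dat.xw_apply]
  split_ifs with hp
  · rw [mulE_apply, wtS_off]
    unfold wI fac
    rw [mul_inv, inv_pow, inv_pow]
    ring
  · ring

lemma cosh_qq (α : ℝ) (s : Bool) : qq α s ^ 2 + (qq α s ^ 2)⁻¹ - 2 = 2 * Real.cosh α - 2 := by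
  unfold qq
  rw [← Real.exp_nat_mul, ← Real.exp_neg, Real.cosh_eq]
  cases s
  · unfold sg
    simp only [Bool.false_eq_true, if_false]
    have e1 : ((2 : ℕ) : ℝ) * (-1 * α / 2) = -α := by push_cast; ring
    rw [e1, neg_neg]; ring
  · unfold sg
    simp only [if_true]
    have e1 : ((2 : ℕ) : ℝ) * (1 * α / 2) = α := by push_cast; ring
    rw [e1]; ring

/-- **From the blocks to the harmonic extension.** -/
theorem harm_of_block (𝔇 : Dat N l n) {δ : ℝ} (hδ : 0 < δ) (hδ₀ : δ ≤ 𝔇.δ₀) {c α : ℝ}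
    (hα : 0 < α) (hc : 0 < c)
    (hblk : ∀ (s : Fin 2 × Bool) (fl : Finset Cn) (ξ : Dat.II l → Fin n → ℝ),
      (if (0, 0) ∈ fl then c * ∑ i, ∑ a, ξ ((0, 0), i) a ^ 2 else 0) ≤
        𝔇.hs hδ hδ₀ fl (mI s.1 (qq α s.2) ξ) (mI s.1 (qq α s.2)⁻¹ ξ)) :
    ∃ Ch : ℝ, 1 ≤ Ch ∧ 𝔇.Harm hδ hδ₀ Ch α := by
  have hCb := 𝔇.CbS_nonneg hδ hδ₀
  obtain ⟨Cw, hCw⟩ : ∃ Cw : ℝ, Cw = Real.exp α := ⟨_, rfl⟩
  have hCw1 : 1 ≤ Cw := by rw [hCw]; exact Real.one_le_exp hα.le
  have hCw0 : 0 < Cw := by linarith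
  have hqle : ∀ s : Bool, qq α s ≤ Cw ∧ (qq α s)⁻¹ ≤ Cw := by
    intro s
    rw [hCw]
    unfold qq
    rw [← Real.exp_neg]
    have h := sg_abs s
    have h1 : |sg s * α / 2| ≤ α := by
      rw [abs_div, abs_mul, h, abs_of_pos hα, one_mul, abs_of_pos (by norm_num : (0:ℝ) < 2)]
      linarith
    exact ⟨Real.exp_le_exp.2 ((le_abs_self _).trans h1),
      Real.exp_le_exp.2 ((neg_le_abs _).trans h1)⟩
  have hw0 : ∀ (s : Fin 2 × Bool) (X : Pl), 0 < wtS α s X := fun s X => Real.exp_pos _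
  refine ⟨HarmC.Ch c (𝔇.CbS hδ hδ₀) 4 Cw, HarmC.Ch_ge hc hCb (by norm_num) hCw1,
    fun a b hab => ?_⟩
  let S : HarmC.Dat Pl Pl (EV l n) (Fin 2 × Bool) c (𝔇.CbS hδ hδ₀) 4 Cw α :=
    { d := dP
      Lam := Finset.Icc a b
      T := TT a b
      sp := spt (Finset.Icc a b)
      diam := fun t _ => spt_diam _ t
      tcard := TT_card a b
      b := fun t => LinearMap.mk₂ ℝ (𝔇.bS hδ hδ₀ (Finset.Icc a b) t) (𝔇.bS_add_left hδ hδ₀ _ t)
        (𝔇.bS_smul_left hδ hδ₀ _ t) (𝔇.bS_add_right hδ hδ₀ _ t) (𝔇.bS_smul_right hδ hδ₀ _ t)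
      b_bd := fun t ht φ w x y hx hy => 𝔇.bS_bd hδ hδ₀ (flg_ne hab ht) φ w x y hx hy
      W := fun s X => mulE s.1 (qq α s.2) (wtS α s X)
      W' := fun s X => mulE s.1 (qq α s.2)⁻¹ (wtS α s X)⁻¹
      wt := wtS α
      wt_pos := hw0
      W_zero := fun s X => mulE_zero _ _ _
      W_inv := fun s X v => mulE_inv _ (qq_pos _ _).ne' (hw0 _ _).ne' v
      W_le := fun s X v => mulE_norm _ (qq_pos _ _) (hqle _).1 hCw1 (hw0 _ _) v
      W'_le := fun s X v => mulE_norm _ (inv_pos.2 (qq_pos _ _)) (hqle _).2 hCw1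
        (inv_pos.2 (hw0 _ _)) v
      wt_near := fun s X Y h => ?_
      wt_dec := fun X Y => ?_
      coer := fun s A hA u hu => ?_ }
  · exact S.harm hc hCb (by norm_num) hCw1
  · unfold wtS
    rw [hCw, ← Real.exp_add]
    refine Real.exp_le_exp.2 ?_
    have h1 := cX_le s.1 X Y
    have h2 : (dP X Y : ℝ) ≤ 1 := by exact_mod_cast h
    have h3 : sg s.2 * (cX s.1 X - cX s.1 Y) ≤ 1 := by
      refine (le_abs_self _).trans ?_
      rw [abs_mul, sg_abs, one_mul]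
      exact h1.trans h2
    have h4 := mul_le_mul_of_nonneg_left h3 hα.le
    linarith
  · obtain ⟨j, hj⟩ := cX_max X Y
    have hd : (dP Y X : ℝ) = dP X Y := by rw [dP_symm]
    rw [hd, ← hj]
    rcases le_total (cX j X : ℝ) (cX j Y) with h | h
    · refine ⟨(j, true), ?_⟩
      unfold wtS sg
      simp only [if_true]
      rw [← Real.exp_neg, ← Real.exp_add, abs_of_nonpos (by linarith)]
      refine Real.exp_le_exp.2 (le_of_eq ?_)
      ring
    · refine ⟨(j, false), ?_⟩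
      unfold wtS sg
      simp only [Bool.false_eq_true, if_false]
      rw [← Real.exp_neg, ← Real.exp_add, abs_of_nonneg (by linarith)]
      refine Real.exp_le_exp.2 (le_of_eq ?_)
      ring
  · have hb : ∀ t : Pl, (if (0, 0) ∈ flg (Finset.Icc a b) t then c * ‖u t‖ ^ 2 else 0) ≤
        𝔇.bS hδ hδ₀ (Finset.Icc a b) t (fun X => mulE s.1 (qq α s.2) (wtS α s X) (u X))
          (fun X => mulE s.1 (qq α s.2)⁻¹ (wtS α s X)⁻¹ (u X)) := by
      intro t
      have h1 := hblk s (flg (Finset.Icc a b) t) (Dat.xw (flg (Finset.Icc a b) t) t u)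
      unfold Dat.bS
      rw [xw_mul, xw_mul', map_smul, map_smul, _root_.smul_apply, smul_eq_mul, smul_eq_mul,
        ← mul_assoc, inv_mul_cancel₀ (hw0 s t).ne', one_mul]
      refine le_trans (le_of_eq ?_) h1
      split_ifs with h0
      · congr 1
        rw [norm_sq_E]
        refine Finset.sum_congr rfl fun i _ => Finset.sum_congr rfl fun a' _ => ?_
        rw [Dat.xw_apply, if_pos h0]
        have : t + off (0, 0) = t := by
          unfold off; ext <;> simp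
        rw [this]
      · rfl
    rw [Finset.mul_sum]
    calc ∑ x ∈ A, c * ‖u x‖ ^ 2 = ∑ x ∈ A, (if (0, 0) ∈ flg (Finset.Icc a b) x then
          c * ‖u x‖ ^ 2 else 0) := by
          refine Finset.sum_congr rfl fun x hx => ?_
          rw [if_pos (Dat.self_flg (hA hx))]
      _ ≤ ∑ t ∈ tch (TT a b) (spt (Finset.Icc a b)) A,
          (if (0, 0) ∈ flg (Finset.Icc a b) t then c * ‖u t‖ ^ 2 else 0) := by
          refine Finset.sum_le_sum_of_subset_of_nonneg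
            (fun X hX => Dat.mem_tch (hA hX) hX) fun t _ _ => ?_
          split_ifs
          · positivity
          · exact le_rfl
      _ ≤ _ := Finset.sum_le_sum fun t _ => hb t

/-- the strength of the gauge fixing for the rate `α` -/
def kap0 (M2 α : ℝ) : ℝ := max (kapc M2 8 (qq α true)) (kapc M2 8 (qq α false))

lemma kap0_pos {M2 α : ℝ} (h : 2 * Real.cosh α - 2 < M2) : 0 < kap0 M2 α := by
  refine lt_max_of_lt_left (kapc_pos (qq_pos α true) ?_ (by norm_num))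
  rw [cosh_qq]
  exact h

/-- **The sharp rate**: if the gauge fixing is strong enough, the harmonic extension decays with
every rate `α` such that `2 cosh α - 2 < M2`, where `M2` is the bottom of the spectrum of the
linearised torus theory. -/
theorem harm_sharp {𝔇 : Dat N l n} {M2 α : ℝ} (S : Spec 𝔇 M2) (hα : 0 < α)
    (h : 2 * Real.cosh α - 2 < M2) (hκ : kap0 M2 α ≤ 𝔇.κ) {δ : ℝ} (hδ : 0 < δ) (hδ₀ : δ ≤ 𝔇.δ₀)
    (hQ : ∀ (fl : Finset Cn) (ξ : Dat.II l → Fin n → ℝ),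
      𝔇.hs hδ hδ₀ fl ξ ξ = QB 𝔇 𝔇.κ fl ξ) :
    ∃ Ch : ℝ, 1 ≤ Ch ∧ 𝔇.Harm hδ hδ₀ Ch α := by
  have hqK : ∀ s : Bool, qq α s ^ 2 + (qq α s ^ 2)⁻¹ - 2 < M2 := fun s => by
    rw [cosh_qq]; exact h
  have hκs : ∀ s : Bool, kapc M2 8 (qq α s) ≤ 𝔇.κ := by
    intro s
    cases s
    · exact (le_max_right _ _).trans hκ
    · exact (le_max_left _ _).trans hκ
  obtain ⟨c, hc, hcl⟩ : ∃ c : ℝ, 0 < c ∧ ∀ s : Bool, c ≤ cofc M2 8 (qq α s) := by
    refine ⟨min (cofc M2 8 (qq α true)) (cofc M2 8 (qq α false)),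
      lt_min (cofc_pos (hqK _) (by norm_num)) (cofc_pos (hqK _) (by norm_num)), fun s => ?_⟩
    cases s
    · exact min_le_right _ _
    · exact min_le_left _ _
  refine harm_of_block 𝔇 hδ hδ₀ hα hc fun s fl ξ => ?_
  have hsym : ∀ ξ η, 𝔇.hs hδ hδ₀ fl ξ η = 𝔇.hs hδ hδ₀ fl η ξ := fun ξ η =>
    hess_symm (𝔇.HH_cd3 hδ hδ₀ fl) ξ η
  rw [bil_eq 𝔇 𝔇.κ fl (𝔇.hs hδ hδ₀ fl) hsym (hQ fl)]
  refine le_trans ?_ (block_conj S (qq_pos α s.2) (hqK s.2) (hκs s.2) s.1 fl ξ)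
  split_ifs
  · exact mul_le_mul_of_nonneg_right (hcl s.2) (Finset.sum_nonneg fun i _ =>
      Finset.sum_nonneg fun a _ => sq_nonneg _)
  · exact le_rfl

end

end Pool.Agent.N990.TW
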