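import Mathlib
import Pool.Agent.N990.TW.Sharp
import Pool.Agent.N838.TW.Spec4

/-!
# The spectral facts of the twisted torus in the form of `Spec`
-/

open MeasureTheory Matrix Filter
open scoped Matrix.Norms.Frobenius
open Pool.Agent.H906R3.YM Pool.Agent.W793.YM Pool.Agent.TH618.YM
open Pool.Agent.N984.TW

namespace Pool.Agent.N990.TW

set_option linter.unusedSectionVars false

noncomputable section

variable {N l n : ℕ} [NeZero N] [NeZero l]

lemma M2_pos (hN : 2 ≤ N) : 0 < M2 N l := by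
  unfold M2
  have hl : 1 ≤ l := Nat.one_le_iff_ne_zero.2 (NeZero.ne l)
  have h1 : (2 : ℝ) ≤ ((N * l : ℕ) : ℝ) := by
    have : 2 ≤ N * l := le_trans hN (Nat.le_mul_of_pos_right N (by omega))
    exact_mod_cast this
  have h2 : 0 < Real.sin (Real.pi / ((N * l : ℕ) : ℝ)) := by
    refine Real.sin_pos_of_pos_of_lt_pi (div_pos Real.pi_pos (by linarith)) ?_
    rw [div_lt_iff₀ (by linarith)]
    nlinarith [Real.pi_pos]
  positivity

/-- the orthogonal projection on the infinitesimal gauge transformations has the spectral facts -/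
theorem exists_spec {z : ℂ} (hN : 2 ≤ N) (hz : IsPrimitiveRoot z N) (W : TwP N z)
    (B : Frame (SU N) n) (hG : IsClosed (SU N : Set (UN N))) :
    ∃ P : (Tor l × Fin 2 → Fin n → ℝ) →ₗ[ℝ] (Tor l → Fin n → ℝ),
      P.comp (Jl B sE tE (vac l W)) = LinearMap.id ∧
      (∀ al, P al = 0 ↔ Jst B (vac l W) al = 0) ∧
      (∀ al, Lap B (vac l W) (P al) = Jst B (vac l W) al) ∧
      ∀ 𝔇 : Dat N l n, 𝔇.B = B → 𝔇.φ₀ = vac l W → 𝔇.P = P → Spec 𝔇 (M2 N l) := by
  obtain ⟨P, h1, h2, h3, h4, h5, h6, h7, h8⟩ := orth_facts (l := l) hz W B hG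
  refine ⟨P, h1, h7, h8, fun 𝔇 e1 e2 e3 => ?_⟩
  refine ⟨M2_pos hN, ?_, ?_, ?_, ?_, ?_⟩
  · rw [e1, e2, e3]; exact h2
  · rw [e1, e2]; exact h6
  · rw [e1, e2, e3]; exact fun om al h => h5 al h om
  · rw [e1, e2]; exact h3
  · rw [e1, e2, e3]; exact h4

end

end Pool.Agent.N990.TW
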