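import Mathlib
import Pool.Agent.N990.TW.SpecB
import Pool.Agent.N987.TW.HessE
import Pool.Agent.N726.TW.DatEx

/-!
# The harmonic extension of the twisted theory with the sharp rate
-/

open MeasureTheory Matrix Filter
open scoped Matrix.Norms.Frobenius
open Pool.Agent.H906R3.YM Pool.Agent.W793.YM Pool.Agent.TH618.YM
open Pool.Agent.N984.TW

namespace Pool.Agent.N990.TW

set_option linter.unusedSectionVars false

noncomputable section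

variable {N l : ℕ} [NeZero N] [NeZero l]

/-- **The data of the gauge fixing with the sharp rate of the harmonic extension**: every rate `α`
with `2 cosh α - 2 < M2 N l` is reached. -/
theorem exists_dat_sharp (hN : 2 ≤ N) {z : ℂ} (hz : IsPrimitiveRoot z N) {α : ℝ} (hα : 0 < α)
    (h : 2 * Real.cosh α - 2 < M2 N l) :
    ∃ (n : ℕ) (W : TwP N z) (𝔇 : Dat N l n), 𝔇.z = z ∧ 𝔇.φ₀ = vac l W ∧
      (∀ al, 𝔇.P al = 0 ↔ Jst 𝔇.B 𝔇.φ₀ al = 0) ∧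
      ∀ {δ : ℝ} (hδ : 0 < δ) (hδ₀ : δ ≤ 𝔇.δ₀), ∃ Ch : ℝ, 1 ≤ Ch ∧ 𝔇.Harm hδ hδ₀ Ch α := by
  have hk := kap0_pos (M2 := M2 N l) (α := α) h
  obtain ⟨n, W, 𝔇, h1, h2, h3, h4, h5, h6, h7, h8, h9, h10⟩ := exists_dat_orth (l := l) hz hk
  refine ⟨n, W, 𝔇, h1, h3, h9, fun {δ} hδ hδ₀ => ?_⟩
  have hS : Spec 𝔇 (M2 N l) := ⟨M2_pos hN, h4, h8, fun om al h => h7 al h om, h5, h6⟩
  exact harm_sharp hS hα h h2.ge hδ hδ₀ fun fl ξ => 𝔇.hess_QB (h1 ▸ hz) hδ hδ₀ fl ξ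

end

end Pool.Agent.N990.TW
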