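import Mathlib
import Pool.Agent.N984.TW.SysF
import Pool.Agent.N726.TW.Meas
import Pool.Agent.N109.SDS.Green

/-!
# The twisted theory as a system with linear structure
-/

open MeasureTheory Matrix Filter
open scoped Matrix.Norms.Frobenius ContDiff Topology ENNReal
open Pool.Agent.H906R3.YM Pool.Agent.W793.YM Pool.Agent.TH618.YM
open Pool.Agent.N990.Mach (tch cl Sys Cst)
open Pool.Agent.N984.TW
open Pool.Agent.N109.SDS (Lin Coer)

namespace Pool.Agent.N990.TW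

set_option linter.unusedSectionVars false
set_option linter.unusedVariables false

noncomputable section

section spins

variable {N n : ℕ} {G : Subgroup (UN N)} (B : Frame G n) {J : Type*} [Fintype J] {Z : Type*}
  [Group Z]

lemma pc_sub' (A A' : Mat N) (a : Fin n) : pc B (A - A') a = pc B A a - pc B A' a := by
  unfold pc
  rw [map_sub]

/-- the coordinates are approximately additive -/
lemma pp_mul (g g' : (J → G) × Z) :
    ‖pp B (g * g') - pp B g - pp B g'‖ ≤ nrm g * nrm g' := by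
  have h0 : 0 ≤ nrm g * nrm g' := mul_nonneg (nrm_nonneg _) (nrm_nonneg _)
  refine abs_le_of_sq_le_sq' (?_ : ‖_‖ ^ 2 ≤ (nrm g * nrm g') ^ 2) h0 |>.2
  have e1 : ∀ j : J, ∀ a : Fin n, (pp B (g * g') - pp B g - pp B g') (j, a) =
      pc B ((mt (g.1 j) - 1) * (mt (g'.1 j) - 1)) a := by
    intro j a
    have h1 : (pp B (g * g') - pp B g - pp B g') (j, a) =
        pc B (mt ((g * g').1 j) - 1) a - pc B (mt (g.1 j) - 1) a - pc B (mt (g'.1 j) - 1) a := rfl
    have h2 : (mt (g.1 j) - 1) * (mt (g'.1 j) - 1) =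
        (mt ((g * g').1 j) - 1) - (mt (g.1 j) - 1) - (mt (g'.1 j) - 1) := by
      have h3 : mt ((g * g').1 j) = mt (g.1 j) * mt (g'.1 j) := rfl
      rw [h3]
      noncomm_ring
    rw [h1, h2, pc_sub' B (mt ((g * g').1 j) - 1 - (mt (g.1 j) - 1)) (mt (g'.1 j) - 1),
      pc_sub' B (mt ((g * g').1 j) - 1) (mt (g.1 j) - 1)]
  rw [norm_sq_E, mul_pow, nrm_sq, nrm_sq]
  calc ∑ j, ∑ a, (pp B (g * g') - pp B g - pp B g') (j, a) ^ 2 =
        ∑ j, ∑ a, pc B ((mt (g.1 j) - 1) * (mt (g'.1 j) - 1)) a ^ 2 := by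
        refine Finset.sum_congr rfl fun j _ => Finset.sum_congr rfl fun a _ => ?_
        rw [e1]
    _ ≤ ∑ j, ‖mt (g.1 j) - 1‖ ^ 2 * ‖mt (g'.1 j) - 1‖ ^ 2 := by
        refine Finset.sum_le_sum fun j _ => (pc_sq_le B _).trans ?_
        rw [← mul_pow]
        exact pow_le_pow_left₀ (norm_nonneg _) (norm_mul_le _ _) 2
    _ ≤ ∑ j, ‖mt (g.1 j) - 1‖ ^ 2 * nsq g' := by
        refine Finset.sum_le_sum fun j _ => mul_le_mul_of_nonneg_left ?_ (sq_nonneg _)
        have := norm_j_le g' j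
        rw [← nrm_sq]
        exact pow_le_pow_left₀ (norm_nonneg _) this 2
    _ = nr g.1 * nsq g' := by rw [← Finset.sum_mul]; rfl
    _ ≤ nsq g * nsq g' := by
        refine mul_le_mul_of_nonneg_right ?_ (nsq_nonneg _)
        unfold nsq
        linarith [dz_nonneg g.2]

end spins

variable {N l n : ℕ} [NeZero N] [NeZero l]

variable (𝔇 : Dat N l n) [MeasurableSpace (SU N)] [BorelSpace (SU N)] (μ : Measure (SU N))
  [IsProbabilityMeasure μ] [μ.IsMulLeftInvariant] [μ.IsMulRightInvariant]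

lemma pp_meas (q : (Tor l × Fin 4) × Fin n) : Measurable fun g : 𝔇.KK => pp 𝔇.B g q := by
  have h3 : Continuous fun k : Tor l × Fin 4 → SU N => pc 𝔇.B (mt (k q.1) - 1) q.2 := by
    unfold pc
    have h4 : Continuous fun k : Tor l × Fin 4 → SU N => mt (k q.1) :=
      (continuous_subtype_val.comp continuous_subtype_val).comp (continuous_apply q.1)
    exact (LinearMap.continuous_of_finiteDimensional _).comp (h4.sub continuous_const)
  exact h3.measurable.comp measurable_fst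

/-- the pairing with the coordinates is measurable -/
lemma inner_pp_meas (u : EV l n) : Measurable fun g : 𝔇.KK => inner ℝ u (pp 𝔇.B g) := by
  have : (fun g : 𝔇.KK => inner ℝ u (pp 𝔇.B g)) = fun g => ∑ q, pp 𝔇.B g q * u q := by
    funext g
    rw [PiLp.inner_apply]
    exact Finset.sum_congr rfl fun q _ => rfl
  rw [this]
  exact Finset.measurable_sum _ fun q _ => (pp_meas 𝔇 q).mul_const _

lemma xw_pp_meas (fl : Finset Cn) (t : Pl) :
    Measurable fun σ : Pl → 𝔇.KK => Dat.xw fl t fun y => pp 𝔇.B (σ y) := by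
  refine measurable_pi_lambda _ fun p => measurable_pi_lambda _ fun a => ?_
  simp only [Dat.xw_apply]
  by_cases hp : p.1 ∈ fl
  · simp only [hp, if_true]
    exact (pp_meas 𝔇 (p.2, a)).comp (measurable_pi_apply _)
  · simp only [hp, if_false]
    exact measurable_const

lemma bS_meas {δ : ℝ} (hδ : 0 < δ) (hδ₀ : δ ≤ 𝔇.δ₀) (Λ : Finset Pl) (t : Pl) (w : Pl → EV l n) :
    Measurable fun σ : Pl → 𝔇.KK => 𝔇.bS hδ hδ₀ Λ t (fun y => pp 𝔇.B (σ y)) w := by
  unfold Dat.bS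
  have h1 : Continuous fun x : Dat.II l → Fin n → ℝ =>
      𝔇.hs hδ hδ₀ (Dat.flg Λ t) x (Dat.xw (Dat.flg Λ t) t w) :=
    ((𝔇.hs hδ hδ₀ (Dat.flg Λ t)).continuous).clm_apply continuous_const
  exact h1.measurable.comp (xw_pp_meas 𝔇 _ t)

end

end Pool.Agent.N990.TW

namespace Pool.Agent.N984.TW.Dat

noncomputable section

variable {N l n : ℕ} [NeZero N] [NeZero l]

variable (𝔇 : Dat N l n) [MeasurableSpace (SU N)] [BorelSpace (SU N)] (μ : Measure (SU N))
  [IsProbabilityMeasure μ] [μ.IsMulLeftInvariant] [μ.IsMulRightInvariant]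

/-- **The gauge fixed ensemble is a system of the machine.** The constants do not depend on the
coupling `β ≥ 1` and on the rectangle. The rate of the harmonic extension is given. -/
theorem exists_sys_lin {δ r : ℝ} (hδ : 0 < δ) (hδ₀ : δ ≤ 𝔇.δ₀) (hr : 0 < r) (hr₀ : 16 * r ≤ 𝔇.c₀)
    (hnm : Measurable (nrm : 𝔇.KK → ℝ))
    (hvol : ∃ c : ℝ, 0 < c ∧ ∃ d : ℝ, 0 ≤ d ∧ ∀ s : ℝ, 0 < s → s ≤ 1 →
      ENNReal.ofReal (c * s ^ d) ≤ 𝔇.nu μ {g | nrm g ≤ s}) {Ch al : ℝ} (hCh : 1 ≤ Ch)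
    (hal : 0 < al) (hH : 𝔇.Harm hδ hδ₀ Ch al) :
    ∃ (c : Cst) (Yb cq : ℝ), c.al = al ∧ 0 < cq ∧ ∀ β : ℝ, 1 ≤ β → ∀ a b : Pl, a ≤ b →
      ∃ S : Sys Pl Pl 𝔇.KK (EV l n) (EV l n) (𝔇.nu μ) c, S.Lam = Finset.Icc a b ∧ S.d = dP ∧
        S.T = TT a b ∧ S.sp = spt (Finset.Icc a b) ∧
        (∀ t g, S.h t g = 𝔇.hT μ δ r β (Finset.Icc a b) t g) ∧ S.nrm = nrm ∧ S.yy = pp 𝔇.B ∧
        S.ex = exx 𝔇.B 𝔇.hG ∧ S.b = 𝔇.bS hδ hδ₀ (Finset.Icc a b) ∧ Lin S Yb 1 ∧ Coer S cq := by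
  obtain ⟨C0, hC0, hup⟩ := 𝔇.hT_sys_upper μ hδ hδ₀ hr
  obtain ⟨cq, hcq, hbc⟩ := 𝔇.bS_coer μ hδ hδ₀ hr hr₀
  obtain ⟨c0, hc0, hco⟩ := 𝔇.hT_sys_coer μ hδ hδ₀ hr hr₀
  obtain ⟨CT, ρT, hCT, hρT, hTy⟩ := 𝔇.taylor μ hδ hδ₀ hr
  obtain ⟨cv, hcv, nv, hnv, hvol⟩ := hvol
  obtain ⟨ρE, hρE, hE⟩ := exx_spec 𝔇.B 𝔇.hG (J := Tor l × Fin 4) 𝔇.Zc
  obtain ⟨nm, hnm1, hnmle⟩ := nrm_le_const (N := N) (G := SU N) (J := Tor l × Fin 4) (Z := 𝔇.Zc)
  obtain ⟨r0, hr0⟩ : ∃ r0 : ℝ, r0 = min 1 (min ρT ρE) := ⟨_, rfl⟩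
  have hr00 : 0 < r0 := by rw [hr0]; positivity
  have hr01 : r0 ≤ 1 := hr0 ▸ min_le_left _ _
  have hr0T : r0 ≤ ρT := hr0 ▸ (min_le_right _ _).trans (min_le_left _ _)
  have hr0E : r0 ≤ ρE := hr0 ▸ (min_le_right _ _).trans (min_le_right _ _)
  have hCb := 𝔇.CbS_nonneg hδ hδ₀
  let c : Cst :=
    { Cg := 4, Dg := 2, C0 := C0, c0 := c0, Cn := 4, CT := CT, Cb := 𝔇.CbS hδ hδ₀
      Ch := Ch
      al := al
      cv := cv, nv := nv, r0 := r0, nm := nm
      hCg := by norm_num, hC0 := hC0, hc0 := hc0, hCn := by norm_num, hCT := hCT, hCb := hCb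
      hCh := hCh
      hal := hal
      hcv := hcv, hnv := hnv, hr0 := hr00, hr1 := hr01, hnm := hnm1 }
  refine ⟨c, nm, cq, rfl, hcq, fun β hβ a b hab => ?_⟩
  have hccle : ∀ (t : Pl) (w : Pl → EV l n), 𝔇.ccS hδ hδ₀ (Finset.Icc a b) t w =
      1 / 2 * 𝔇.bS hδ hδ₀ (Finset.Icc a b) t w w := fun _ _ => rfl
  refine ⟨{ d := dP, dself := dP_self, dsymm := dP_symm, dtri := fun x y z => dP_tri x y z
            growth := dP_growth
            Lam := Finset.Icc a b, T := TT a b, sp := spt (Finset.Icc a b)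
            diam := fun t _ => spt_diam _ t
            tcard := TT_card a b
            h := 𝔇.hT μ δ r β (Finset.Icc a b)
            hloc := fun t _ φ φ' h => 𝔇.hT_loc μ δ r β _ t φ φ' h
            hmeas := fun t _ => 𝔇.hT_meas μ hδ hδ₀ r β _ t
            hbd := fun t _ => 𝔇.hT_bd μ hδ hδ₀ hr _ t hβ
            nrm := nrm, nrm_meas := hnm, nrm_nonneg := nrm_nonneg, nrm_one := nrm_one
            nrm_mul := nrm_mul, nrm_inv := nrm_inv, nrm_le := hnmle
            vol := hvol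
            upper := fun A _ φ => by
              refine (hup β hβ a b A φ).trans (le_of_eq ?_)
              refine congrArg (C0 * ·) (Finset.sum_congr ?_ fun _ _ => rfl)
              ext x
              simp only [Finset.mem_union]
            coer := fun A hA φ => hco β hβ a b A hA φ
            yy := pp 𝔇.B
            yy_le := fun g _ => (pp_le 𝔇.B g).trans (by linarith [nrm_nonneg g])
            p := pp 𝔇.B
            ex := exx 𝔇.B 𝔇.hG
            Rel := fun _ om v w => 𝔇.RelT om v w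
            rel_p := fun d om g h1 h2 h3 => ⟨rfl, by linarith [nrm_nonneg g]⟩
            p_le := fun om g h1 _ => (pp_le 𝔇.B g).trans h1
            rel_ex := fun d om w h1 h2 h3 => ?_
            ex_nrm := fun om w h1 h2 => ?_
            rel_one := fun d om h1 h2 => ⟨pp_one 𝔇.B, ?_⟩
            b := 𝔇.bS hδ hδ₀ (Finset.Icc a b)
            cc := 𝔇.ccS hδ hδ₀ (Finset.Icc a b)
            b_add := fun t φ φ' w => 𝔇.bS_add_left hδ hδ₀ _ t φ φ' w
            b_bd := fun t ht φ w x y hx hy => 𝔇.bS_bd hδ hδ₀ (flg_ne hab ht) φ w x y hx hy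
            cc_bd := fun t ht w y hy => ?_
            taylor := fun t _ φ v w d om h1 h2 h3 h4 h5 => ?_
            harm := fun A hA z => ?_ }, rfl, rfl, rfl, rfl, fun t g => rfl, rfl, rfl, rfl, rfl,
          ?_, ?_⟩
  · have h4 := hE w ((h1.trans (h2.trans h3)).trans hr0E)
    exact ⟨h4.1, h4.2.trans (by linarith)⟩
  · have h4 := hE w ((h1.trans h2).trans hr0E)
    exact h4.2.trans (by linarith)
  · have h4 : nrm (1 : 𝔇.KK) = 0 := nrm_one
    rw [h4]; positivity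
  · have h1 := 𝔇.bS_bd hδ hδ₀ (flg_ne hab ht) w w y y hy hy
    rw [hccle, abs_mul, abs_of_pos (by norm_num : (0 : ℝ) < 1 / 2)]
    have h2 : 0 ≤ |𝔇.bS hδ hδ₀ (Finset.Icc a b) t w w| := abs_nonneg _
    calc 1 / 2 * |𝔇.bS hδ hδ₀ (Finset.Icc a b) t w w| ≤ |𝔇.bS hδ hδ₀ (Finset.Icc a b) t w w| := by
          linarith
      _ ≤ 𝔇.CbS hδ hδ₀ * y * y := h1
      _ = 𝔇.CbS hδ hδ₀ * y ^ 2 := by ring
  · exact hTy β _ t φ v w d om h1 h2 (h3.trans hr0T) h4 h5
  · exact hH a b hab A hA z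
  · exact
      { yy_bd := fun g => (pp_le 𝔇.B g).trans (hnmle g)
        Cy0 := zero_le_one
        yy_mul := fun g g' =>
          (Pool.Agent.N990.TW.pp_mul 𝔇.B g g').trans (one_mul (nrm g * nrm g')).ge
        yy_ex := fun w hw => (hE w (hw.trans hr0E)).1
        ex_zero := by
          show exx 𝔇.B 𝔇.hG (0 : EV l n) = (1 : 𝔇.KK)
          unfold exx
          refine Prod.ext (funext fun j => ?_) rfl
          exact Ek_zero 𝔇.B 𝔇.hG
        yy_meas := fun u => Pool.Agent.N990.TW.inner_pp_meas 𝔇 u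
        b_meas := fun t _ w => Pool.Agent.N990.TW.bS_meas 𝔇 hδ hδ₀ _ t w
        b_smul_left := fun t a φ w => 𝔇.bS_smul_left hδ hδ₀ _ t a φ w
        b_add_right := fun t φ w w' => 𝔇.bS_add_right hδ hδ₀ _ t φ w w'
        b_smul_right := fun t a φ w => 𝔇.bS_smul_right hδ hδ₀ _ t a φ w }
  · exact fun A hA φ _ => hbc a b A hA φ

end

end Pool.Agent.N984.TW.Dat
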